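import Mathlib
import Pool.Agent.Helper549.Kneser

set_option autoImplicit false
set_option linter.unusedSectionVars false

open scoped Pointwise
open Finset

namespace Pool.Agent.Helper549

open Kneser

/-- A finite set `A` in an abelian group is `[0,2]`-sum-free: `0 ∉ A`, `0 ∉ A + A` and
`A + A` is disjoint from `A`. -/
def SF {G : Type*} [AddCommGroup G] (A : Finset G) : Prop :=
  (0 : G) ∉ A ∧ (∀ a ∈ A, ∀ b ∈ A, a + b ≠ 0) ∧ (∀ a ∈ A, ∀ b ∈ A, a + b ∉ A)

section

variable {G : Type*} [AddCommGroup G] [Fintype G] [DecidableEq G]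

theorem SF.zero {A : Finset G} (h : SF A) : (0 : G) ∉ A := h.1

theorem SF.neg_notMem {A : Finset G} (h : SF A) {a : G} (ha : a ∈ A) : -a ∉ A := by
  intro hb
  exact h.2.1 a ha (-a) hb (add_neg_cancel a)

/-- a difference of two elements of `A` is not in `A`. -/
theorem SF.sub_notMem {A : Finset G} (h : SF A) {a b : G} (ha : a ∈ A) (hb : b ∈ A) :
    a - b ∉ A := by
  intro hc
  have := h.2.2 (a - b) hc b hb
  rw [sub_add_cancel] at this
  exact this ha

theorem SF.neg_sub_notMem {A : Finset G} (h : SF A) {a b : G} (ha : a ∈ A) (hb : b ∈ A) :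
    -(a - b) ∉ A := by
  rw [neg_sub]
  exact h.sub_notMem hb ha

theorem card_dvd (H : AddSubgroup G) (X : Finset G) (h : H ≤ stab X) :
    (fs H).card ∣ X.card := by
  classical
  rw [Finset.card_eq_sum_card_image (fun x : G => (QuotientAddGroup.mk x : G ⧸ H)) X]
  apply Finset.dvd_sum
  intro q hq
  rw [Finset.mem_image] at hq
  obtain ⟨x0, hx0, rfl⟩ := hq
  have : X.filter (fun x => (QuotientAddGroup.mk x : G ⧸ H) = QuotientAddGroup.mk x0)
      = (fs H).image (fun g => x0 + g) := by
    ext x
    simp only [mem_filter, mem_image, mem_fs]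
    constructor
    · rintro ⟨hx, hq⟩
      refine ⟨-x0 + x, ?_, by abel⟩
      exact QuotientAddGroup.eq.mp hq.symm
    · rintro ⟨g, hg, rfl⟩
      refine ⟨stab_add (h hg) hx0, ?_⟩
      apply Eq.symm
      rw [QuotientAddGroup.eq]
      simpa using hg
  rw [this, card_image_of_injective _ (add_right_injective x0)]

theorem le_stab_univ (H : AddSubgroup G) : H ≤ stab (univ : Finset G) := by
  intro g _ x
  simp

theorem card_dvd_univ (H : AddSubgroup G) : (fs H).card ∣ Fintype.card G := by
  have := card_dvd H (univ : Finset G) (le_stab_univ H)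
  rwa [Finset.card_univ] at this

theorem le_stab_add (H : AddSubgroup G) (X : Finset G) : H ≤ stab (X + fs H) := by
  intro g hg
  apply mem_stab_of_forall
  intro x hx
  rw [Finset.mem_add] at hx ⊢
  obtain ⟨a, ha, b, hb, rfl⟩ := hx
  exact ⟨a, ha, b + g, mem_fs.mpr (H.add_mem (mem_fs.mp hb) hg), by abel⟩

theorem card_neg' (X : Finset G) : (-X).card = X.card := Finset.card_neg X

/-- Main upper bound from Kneser's theorem. -/
theorem upper_main (A : Finset G) (hA : SF A) :
    4 * A.card ≤ Fintype.card G ∨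
    ∃ d, d ∣ Fintype.card G ∧ d % 4 = 3 ∧ 4 * d * A.card ≤ (d + 1) * Fintype.card G := by
  classical
  rcases A.eq_empty_or_nonempty with rfl | hne
  · left; simp
  set D := A + -A with hD
  set H := stab D with hH
  set h := (fs H).card with hh
  have hpos : 0 < h := fs_card_pos H
  set E := A + fs H with hE
  have hAE : A ⊆ E := by
    intro a ha
    rw [hE, Finset.mem_add]
    exact ⟨a, ha, 0, mem_fs.mpr H.zero_mem, add_zero a⟩
  have hHE : H ≤ stab E := le_stab_add H A
  have hnegE : -E = -A + fs H := by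
    ext x
    rw [Finset.mem_neg', hE, Finset.mem_add, Finset.mem_add]
    constructor
    · rintro ⟨a, ha, b, hb, hab⟩
      refine ⟨-a, Finset.neg_mem_neg ha, -b, mem_fs.mpr (H.neg_mem (mem_fs.mp hb)), ?_⟩
      rw [← neg_add, hab, neg_neg]
    · rintro ⟨a, ha, b, hb, hab⟩
      refine ⟨-a, Finset.mem_neg'.mp ha, -b, mem_fs.mpr (H.neg_mem (mem_fs.mp hb)), ?_⟩
      rw [← neg_add, hab]
  have hHnE : H ≤ stab (-E) := by
    rw [hnegE]; exact le_stab_add H (-A)
  have hkn := kneser' A (-A) hne hne.neg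
  rw [← hD, ← hH, ← hnegE, ← hE, card_neg'] at hkn
  -- D periodic
  have hDadd : ∀ d ∈ D, ∀ g ∈ H, d + g ∈ D := fun d hd g hg => stab_add hg hd
  -- A disjoint from D and -A disjoint from D
  have hdisj1 : Disjoint E D := by
    rw [Finset.disjoint_left]
    intro x hx hxD
    rw [hE, Finset.mem_add] at hx
    obtain ⟨a, ha, g, hg, rfl⟩ := hx
    have h1 : a ∈ D := by
      have := hDadd _ hxD (-g) (H.neg_mem (mem_fs.mp hg))
      rwa [add_neg_cancel_right] at this
    rw [hD, Finset.mem_add] at h1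
    obtain ⟨b, hb, c, hc, hbc⟩ := h1
    have := hA.sub_notMem hb (Finset.mem_neg'.mp hc)
    rw [sub_neg_eq_add, hbc] at this
    exact this ha
  have hDneg : ∀ d ∈ D, -d ∈ D := by
    intro d hd
    rw [hD, Finset.mem_add] at hd ⊢
    obtain ⟨b, hb, c, hc, rfl⟩ := hd
    exact ⟨-c, Finset.mem_neg'.mp hc, -b, Finset.neg_mem_neg hb, by abel⟩
  have hdisj2 : Disjoint (-E) D := by
    rw [Finset.disjoint_left]
    intro x hx hxD
    rw [Finset.mem_neg'] at hx
    exact Finset.disjoint_left.mp hdisj1 hx (hDneg x hxD)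
  have hunion : (E ∪ -E).card + D.card ≤ Fintype.card G := by
    rw [← Finset.card_union_of_disjoint (Finset.disjoint_union_left.mpr ⟨hdisj1, hdisj2⟩)]
    exact Finset.card_le_univ _
  have hie := Finset.card_union_add_card_inter E (-E)
  rw [card_neg'] at hie
  -- split
  set E0 := E ∩ -E with hE0
  have hHE0 : H ≤ stab E0 := by
    intro g hg
    apply mem_stab_of_forall
    intro x hx
    rw [hE0, Finset.mem_inter] at hx ⊢
    exact ⟨stab_add (hHE hg) hx.1, stab_add (hHnE hg) hx.2⟩
  have hE0sub : E0 ⊆ E := Finset.inter_subset_left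
  obtain ⟨e, he⟩ := card_dvd H E hHE
  obtain ⟨y, hy⟩ := card_dvd H E0 hHE0
  obtain ⟨N, hN⟩ := card_dvd_univ (G := G) H
  -- A ∩ E0
  have hA0 : 2 * (A ∩ E0).card ≤ E0.card := by
    have hd : Disjoint (A ∩ E0) (-(A ∩ E0)) := by
      rw [Finset.disjoint_left]
      intro x hx hx'
      rw [Finset.mem_neg', Finset.mem_inter] at hx'
      rw [Finset.mem_inter] at hx
      exact hA.neg_notMem hx.1 hx'.1
    have hs : (A ∩ E0) ∪ (-(A ∩ E0)) ⊆ E0 := by
      intro x hx
      rw [Finset.mem_union] at hx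
      rcases hx with hx | hx
      · exact (Finset.mem_inter.mp hx).2
      · rw [Finset.mem_neg', Finset.mem_inter] at hx
        have := hx.2
        rw [hE0, Finset.mem_inter, Finset.mem_neg', neg_neg] at this
        rw [hE0, Finset.mem_inter, Finset.mem_neg']
        exact ⟨this.2, this.1⟩
    have := Finset.card_le_card hs
    rw [Finset.card_union_of_disjoint hd, card_neg'] at this
    omega
  have hA1 : A.card ≤ (A ∩ E0).card + (E.card - E0.card) := by
    have h1 : (A \ E0).card ≤ (E \ E0).card := Finset.card_le_card (Finset.sdiff_subset_sdiff hAE le_rfl)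
    rw [Finset.card_sdiff_of_subset hE0sub] at h1
    have h2 := Finset.card_inter_add_card_sdiff A E0
    omega
  rw [← hh] at he hy hN hkn
  have hle : E0.card ≤ E.card := Finset.card_le_card hE0sub
  -- y ≤ e
  have hye : y ≤ e := by
    have : h * y ≤ h * e := by rw [← he, ← hy]; exact hle
    exact Nat.le_of_mul_le_mul_left this hpos
  obtain ⟨x, rfl⟩ := Nat.exists_eq_add_of_le hye
  -- 4x+3y ≤ N+1
  have hxy : 4 * x + 3 * y ≤ N + 1 := by
    have : h * (4 * x + 3 * y) ≤ h * (N + 1) := by nlinarith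
    exact Nat.le_of_mul_le_mul_left this hpos
  have hAc : 2 * A.card ≤ h * (2 * x + y) := by
    have : E.card - E0.card = h * x := by
      rw [he, hy, Nat.mul_add]; omega
    rw [this] at hA1
    nlinarith
  rcases Nat.eq_zero_or_pos y with rfl | hypos
  · by_cases hmod : N % 4 = 3
    · right
      refine ⟨N, ⟨h, by rw [hN, mul_comm]⟩, hmod, ?_⟩
      rw [hN]
      have h4 : 4 * A.card ≤ h * (N + 1) := by
        calc 4 * A.card ≤ h * (4 * x) := by nlinarith
          _ ≤ h * (N + 1) := Nat.mul_le_mul_left _ (by omega)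
      calc 4 * N * A.card = N * (4 * A.card) := by ring
        _ ≤ N * (h * (N + 1)) := Nat.mul_le_mul_left _ h4
        _ = (N + 1) * (h * N) := by ring
    · left
      rw [hN]
      calc 4 * A.card ≤ h * (4 * x) := by nlinarith
          _ ≤ h * N := Nat.mul_le_mul_left _ (by omega)
  · left
    rw [hN]
    calc 4 * A.card ≤ h * (4 * x + 2 * y) := by nlinarith
          _ ≤ h * N := Nat.mul_le_mul_left _ (by omega)

end

end Pool.Agent.Helper549
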