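import Mathlib
import Pool.Agent.Helper549.SF02

set_option autoImplicit false
set_option linter.unusedSectionVars false

open Finset

namespace Pool.Agent.Helper549

theorem exists_cyclic_quot_mul (M : Type*) [CommGroup M] [Finite M] :
    ∃ g : M →* Multiplicative (ZMod (Monoid.exponent M)), Function.Surjective g := by
  classical
  have : NeZero (Monoid.exponent M) := ⟨Monoid.exponent_ne_zero_of_finite⟩
  obtain ⟨e⟩ := CommGroup.monoidHom_mulEquiv_of_hasEnoughRootsOfUnity M ℂ
  have hd : Monoid.exponent (M →* ℂˣ) = Monoid.exponent M := Monoid.exponent_eq_of_mulEquiv e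
  have hE : Monoid.ExponentExists (M →* ℂˣ) :=
    Monoid.exponent_ne_zero.mp (by rw [hd]; exact NeZero.ne _)
  obtain ⟨χ, hχ⟩ := Monoid.exists_orderOf_eq_exponent hE
  have : Finite χ.range := Set.finite_range χ
  have : IsCyclic χ.range := inferInstance
  have hcard : Nat.card χ.range = Monoid.exponent M := by
    apply Nat.dvd_antisymm
    · rw [← IsCyclic.exponent_eq_card]
      apply Monoid.exponent_dvd_of_forall_pow_eq_one
      rintro ⟨_, x, rfl⟩
      apply Subtype.ext
      rw [SubmonoidClass.coe_pow]
      show (χ x) ^ _ = 1
      rw [← map_pow, Monoid.pow_exponent_eq_one, map_one]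
    · rw [← hd, ← hχ]
      apply orderOf_dvd_of_pow_eq_one
      ext x
      have : (⟨χ x, x, rfl⟩ : χ.range) ^ (Nat.card χ.range) = 1 := pow_card_eq_one'
      have h2 := congrArg (Subtype.val) this
      rw [SubmonoidClass.coe_pow] at h2
      rw [MonoidHom.pow_apply]
      exact congrArg Units.val h2
  have e2 := (zmodCyclicMulEquiv (G := χ.range) inferInstance).symm
  rw [hcard] at e2
  exact ⟨e2.toMonoidHom.comp χ.rangeRestrict, e2.surjective.comp χ.rangeRestrict_surjective⟩

/-- A finite abelian group of exponent `κ` has the cyclic group of order `κ` as a quotient. -/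
theorem exists_cyclic_quot (G : Type*) [AddCommGroup G] [Finite G] :
    ∃ f : G →+ ZMod (AddMonoid.exponent G), Function.Surjective f := by
  obtain ⟨g, hg⟩ := exists_cyclic_quot_mul (Multiplicative G)
  refine ⟨MonoidHom.toAdditive g, ?_⟩
  intro y
  obtain ⟨w, hw⟩ := hg (Multiplicative.ofAdd y)
  refine ⟨Multiplicative.toAdd w, ?_⟩
  show Multiplicative.toAdd (g w) = y
  rw [hw]
  rfl

theorem exists_quot (G : Type*) [AddCommGroup G] [Finite G] (d : ℕ)
    (hd : d ∣ AddMonoid.exponent G) : ∃ f : G →+ ZMod d, Function.Surjective f := by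
  obtain ⟨f, hf⟩ := exists_cyclic_quot G
  exact ⟨(ZMod.castHom hd (ZMod d)).toAddMonoidHom.comp f,
    (ZMod.castHom_surjective hd).comp hf⟩

section

variable {G : Type*} [AddCommGroup G] [Fintype G] [DecidableEq G]

theorem fiber_card {K : Type*} [AddCommGroup K] [Fintype K] [DecidableEq K] (f : G →+ K)
    (hf : Function.Surjective f) (B : Finset K) :
    (univ.filter (fun x => f x ∈ B)).card
      = B.card * (univ.filter (fun x => f x = 0)).card := by
  have h1 : ∀ b ∈ B, ((univ.filter (fun x => f x ∈ B)).filter (fun x => f x = b)).card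
      = (univ.filter (fun x => f x = 0)).card := by
    intro b hb
    obtain ⟨x0, hx0⟩ := hf b
    have : (univ.filter (fun x => f x ∈ B)).filter (fun x => f x = b)
        = (univ.filter (fun x => f x = 0)).image (fun y => x0 + y) := by
      ext x
      simp only [mem_filter, mem_univ, true_and, mem_image]
      constructor
      · rintro ⟨_, h2⟩
        refine ⟨x - x0, ?_, by abel⟩
        rw [map_sub, h2, hx0, sub_self]
      · rintro ⟨y, hy, rfl⟩
        rw [map_add, hy, add_zero, hx0]
        exact ⟨hb, rfl⟩
    rw [this, card_image_of_injective _ (add_right_injective x0)]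
  rw [Finset.card_eq_sum_card_fiberwise (f := fun x : G => f x)
    (s := univ.filter (fun x => f x ∈ B)) (t := B)
    (fun x hx => (Finset.mem_filter.mp (Finset.mem_coe.mp hx)).2)]
  rw [Finset.sum_congr rfl h1, Finset.sum_const, smul_eq_mul]

theorem pull {K : Type*} [AddCommGroup K] [Fintype K] (f : G →+ K)
    (hf : Function.Surjective f) (B : Finset K) (hB : SF B) :
    ∃ A : Finset G, SF A ∧ A.card * Fintype.card K = B.card * Fintype.card G := by
  classical
  refine ⟨univ.filter (fun x => f x ∈ B), ⟨?_, ?_, ?_⟩, ?_⟩
  · simp only [mem_filter, mem_univ, true_and, map_zero]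
    exact hB.1
  · intro a ha b hb hab
    simp only [mem_filter, mem_univ, true_and] at ha hb
    apply hB.2.1 _ ha _ hb
    rw [← map_add, hab, map_zero]
  · intro a ha b hb
    simp only [mem_filter, mem_univ, true_and] at ha hb ⊢
    rw [map_add]
    exact hB.2.2 _ ha _ hb
  · rw [fiber_card f hf B]
    have := fiber_card f hf (univ : Finset K)
    have h2 : (univ.filter (fun x => f x ∈ (univ : Finset K))) = (univ : Finset G) := by
      ext x; simp
    rw [h2, Finset.card_univ, Finset.card_univ] at this
    rw [this]
    ring

theorem zmod_lower (d : ℕ) [NeZero d] : ∃ B : Finset (ZMod d), SF B ∧ B.card = (d + 1) / 4 := by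
  classical
  set m := (d + 1) / 4 with hm
  have hd : 0 < d := Nat.pos_of_ne_zero (NeZero.ne d)
  refine ⟨(Finset.Ico m (2 * m)).image (fun i : ℕ => (i : ZMod d)), ?_, ?_⟩
  · have key : ∀ a ∈ (Finset.Ico m (2 * m)).image (fun i : ℕ => (i : ZMod d)),
        m ≤ a.val ∧ a.val ≤ 2 * m - 1 ∧ 0 < m := by
      intro a ha
      simp only [mem_image, mem_Ico] at ha
      obtain ⟨i, hi, rfl⟩ := ha
      rw [ZMod.val_natCast, Nat.mod_eq_of_lt (by omega)]
      omega
    refine ⟨?_, ?_, ?_⟩
    · intro h0
      have := key _ h0
      rw [ZMod.val_zero] at this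
      omega
    · intro a ha b hb hab
      have h1 := key a ha
      have h2 := key b hb
      have h3 := congrArg ZMod.val hab
      rw [ZMod.val_zero, ZMod.val_add, Nat.mod_eq_of_lt (by omega)] at h3
      omega
    · intro a ha b hb hab
      have h1 := key a ha
      have h2 := key b hb
      have h3 := key _ hab
      rw [ZMod.val_add, Nat.mod_eq_of_lt (by omega)] at h3
      omega
  · rw [Finset.card_image_of_injOn, Nat.card_Ico]
    · omega
    · intro i hi j hj hij
      simp only [coe_Ico, Set.mem_Ico] at hi hj
      have h3 := congrArg ZMod.val hij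
      simp only [ZMod.val_natCast] at h3
      rw [Nat.mod_eq_of_lt (by omega), Nat.mod_eq_of_lt (by omega)] at h3
      exact h3

/-- the lower bound from cyclic quotients. -/
theorem lower_main (d : ℕ) (hd : d ∣ AddMonoid.exponent G) :
    ∃ A : Finset G, SF A ∧ A.card * d = ((d + 1) / 4) * Fintype.card G := by
  have hne : d ≠ 0 := by
    rintro rfl
    rw [zero_dvd_iff] at hd
    exact AddMonoid.exponent_ne_zero_of_finite hd
  have : NeZero d := ⟨hne⟩
  obtain ⟨f, hf⟩ := exists_quot G d hd
  obtain ⟨B, hB, hBc⟩ := zmod_lower d
  obtain ⟨A, hA, hAc⟩ := pull f hf B hB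
  rw [ZMod.card, hBc] at hAc
  exact ⟨A, hA, hAc⟩

/-- the lower bound for exponent `≡ 2 mod 4`. -/
theorem lower3 (hκ : AddMonoid.exponent G % 4 = 2) :
    ∃ A : Finset G, SF A ∧
      4 * A.card + (univ.filter (fun x : G => x + x = 0)).card = Fintype.card G := by
  classical
  obtain ⟨f, hf⟩ := exists_quot G 2 (by omega)
  obtain ⟨m, hm⟩ : ∃ m, AddMonoid.exponent G = 2 * (2 * m + 1) :=
    ⟨AddMonoid.exponent G / 4, by omega⟩
  have hexp : ∀ x : G, (2 * (2 * m + 1)) • x = 0 := by
    intro x; rw [← hm]; exact AddMonoid.exponent_nsmul_eq_zero x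
  let e := Fintype.equivFin G
  set C := univ.filter (fun x : G => f x = 1) with hC
  set T := univ.filter (fun x : G => x + x = 0) with hT
  set A := C.filter (fun x => e x < e (-x)) with hA
  have z2 : ∀ z : ZMod 2, -z = z := by decide
  have z3 : ∀ z : ZMod 2, z ≠ 1 → z = 0 := by decide
  have memC : ∀ x, x ∈ C ↔ f x = 1 := by intro x; simp [hC]
  have memA : ∀ x, x ∈ A ↔ f x = 1 ∧ e x < e (-x) := by intro x; simp [hA, hC]
  have negC : ∀ x, x ∈ C → -x ∈ C := by
    intro x hx
    rw [memC] at hx ⊢
    rw [map_neg, hx]; decide
  refine ⟨A, ⟨?_, ?_, ?_⟩, ?_⟩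
  · rw [memA]; simp
  · intro a ha b hb hab
    have hb' : b = -a := eq_neg_of_add_eq_zero_right hab
    rw [hb', memA] at hb
    rw [memA] at ha
    have h1 := hb.2
    rw [neg_neg] at h1
    exact lt_asymm h1 ha.2
  · intro a ha b hb hab
    rw [memA] at ha hb hab
    have := hab.1
    rw [map_add, ha.1, hb.1] at this
    exact absurd this (by decide)
  · -- count
    have hCsplit : C.card = A.card + (C.filter (fun x => e (-x) < e x)).card
        + (C.filter (fun x => x + x = 0)).card := by
      rw [hA, ← Finset.card_union_of_disjoint, ← Finset.card_union_of_disjoint]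
      · congr 1
        ext x
        simp only [mem_union, mem_filter]
        constructor
        · intro hx
          rcases lt_trichotomy (e x) (e (-x)) with h | h | h
          · exact Or.inl (Or.inl ⟨hx, h⟩)
          · right
            have := e.injective h
            exact ⟨hx, by rw [eq_neg_iff_add_eq_zero] at this; exact this⟩
          · exact Or.inl (Or.inr ⟨hx, h⟩)
        · rintro ((h | h) | h)
          · exact h.1
          · exact h.1
          · exact h.1
      · rw [Finset.disjoint_left]
        intro x hx hx'
        simp only [mem_union, mem_filter] at hx hx'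
        have : x = -x := eq_neg_of_add_eq_zero_left hx'.2
        rw [← this] at hx
        rcases hx with h | h
        · exact lt_irrefl _ h.2
        · exact lt_irrefl _ h.2
      · rw [Finset.disjoint_left]
        intro x hx hx'
        simp only [mem_filter] at hx hx'
        exact lt_asymm hx.2 hx'.2
    have hAeq : (C.filter (fun x => e (-x) < e x)).card = A.card := by
      apply Finset.card_nbij' (fun x => -x) (fun x => -x)
      · intro x hx
        have hx := Finset.mem_filter.mp (Finset.mem_coe.mp hx)
        apply Finset.mem_coe.mpr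
        rw [hA, Finset.mem_filter]
        exact ⟨negC x hx.1, by rw [neg_neg]; exact hx.2⟩
      · intro x hx
        have hx := Finset.mem_filter.mp (Finset.mem_coe.mp hx)
        apply Finset.mem_coe.mpr
        rw [Finset.mem_filter]
        exact ⟨negC x hx.1, by rw [neg_neg]; exact hx.2⟩
      · intro x _; exact neg_neg x
      · intro x _; exact neg_neg x
    -- |C| = n/2 and |C ∩ T| = |T|/2
    obtain ⟨x0, hx0⟩ := hf 1
    set t0 := (2 * m + 1) • x0 with ht0
    have ht0T : t0 + t0 = 0 := by
      rw [← two_nsmul, ht0, ← mul_nsmul']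
      exact hexp x0
    have hft0 : f t0 = 1 := by
      rw [ht0, map_nsmul, hx0, nsmul_eq_mul, mul_one]
      push_cast
      have : (2 : ZMod 2) = 0 := by decide
      rw [this]; ring
    have halfG : 2 * C.card = Fintype.card G := by
      have h1 : C.card = (univ.filter (fun x : G => ¬ f x = 1)).card := by
        apply Finset.card_nbij' (fun x => x + t0) (fun x => x + t0)
        · intro x hx
          have hx := (memC x).mp (Finset.mem_coe.mp hx)
          simp only [coe_filter, mem_univ, true_and, Set.mem_ofPred_eq]
          rw [map_add, hx, hft0]; decide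
        · intro x hx
          simp only [coe_filter, mem_univ, true_and, Set.mem_ofPred_eq] at hx
          apply Finset.mem_coe.mpr
          show x + t0 ∈ C
          rw [memC, map_add, hft0, z3 _ hx, zero_add]
        · intro x _; show x + t0 + t0 = x; rw [add_assoc, ht0T, add_zero]
        · intro x _; show x + t0 + t0 = x; rw [add_assoc, ht0T, add_zero]
      have h2 := Finset.card_filter_add_card_filter_not (s := (univ : Finset G)) (fun x => f x = 1)
      rw [Finset.card_univ] at h2
      rw [← hC] at h2
      omega
    have halfT : 2 * (C.filter (fun x => x + x = 0)).card = T.card := by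
      have h1 : (C.filter (fun x => x + x = 0)).card = (T.filter (fun x : G => ¬ f x = 1)).card := by
        apply Finset.card_nbij' (fun x => x + t0) (fun x => x + t0)
        · intro x hx
          have hx := Finset.mem_filter.mp (Finset.mem_coe.mp hx)
          rw [memC] at hx
          apply Finset.mem_coe.mpr
          rw [Finset.mem_filter, hT, Finset.mem_filter]
          refine ⟨⟨mem_univ _, ?_⟩, ?_⟩
          · calc x + t0 + (x + t0) = (x + x) + (t0 + t0) := by abel
              _ = 0 := by rw [hx.2, ht0T, add_zero]
          · rw [map_add, hx.1, hft0]; decide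
        · intro x hx
          have hx := Finset.mem_filter.mp (Finset.mem_coe.mp hx)
          rw [hT, Finset.mem_filter] at hx
          apply Finset.mem_coe.mpr
          rw [Finset.mem_filter, memC]
          refine ⟨?_, ?_⟩
          · rw [map_add, hft0, z3 _ hx.2, zero_add]
          · calc x + t0 + (x + t0) = (x + x) + (t0 + t0) := by abel
              _ = 0 := by rw [hx.1.2, ht0T, add_zero]
        · intro x _; show x + t0 + t0 = x; rw [add_assoc, ht0T, add_zero]
        · intro x _; show x + t0 + t0 = x; rw [add_assoc, ht0T, add_zero]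
      have h2 := Finset.card_filter_add_card_filter_not (s := T) (fun x => f x = 1)
      have h3 : (T.filter (fun x => f x = 1)) = C.filter (fun x => x + x = 0) := by
        ext x
        simp only [hT, hC, mem_filter, mem_univ, true_and]
        exact and_comm
      rw [h3] at h2
      omega
    omega

end

end Pool.Agent.Helper549
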