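import Mathlib
import Pool.Agent.Helper549.SF02

set_option autoImplicit false
set_option linter.unusedSectionVars false

open scoped Pointwise
open Finset

namespace Pool.Agent.Helper549

open Kneser

section

variable {Q : Type*} [AddCommGroup Q] [Fintype Q] [DecidableEq Q]

/-- The level set of a function at height `t`. -/
def lev (a : Q → ℕ) (t : ℕ) : Finset Q := univ.filter (fun x => t < a x)

theorem mem_lev {a : Q → ℕ} {t : ℕ} {x : Q} : x ∈ lev a t ↔ t < a x := by simp [lev]

theorem lev_anti (a : Q → ℕ) {s t : ℕ} (h : s ≤ t) : lev a t ⊆ lev a s := by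
  intro x hx
  rw [mem_lev] at hx ⊢
  omega

theorem sum_lev (a : Q → ℕ) (S : Finset Q) (h : ℕ) (ha : ∀ x, a x ≤ h) :
    ∑ x ∈ S, a x = ∑ t ∈ range h, (S.filter (fun x => t < a x)).card := by
  have h1 : ∀ x ∈ S, a x = ∑ t ∈ range h, if t < a x then 1 else 0 := by
    intro x _
    rw [Finset.sum_boole]
    have : (range h).filter (fun t => t < a x) = range (a x) := by
      ext t
      simp only [mem_filter, mem_range]
      have := ha x
      constructor
      · intro h; exact h.2
      · intro h; exact ⟨by omega, h⟩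
    rw [this, card_range]
    simp
  rw [Finset.sum_congr rfl h1, Finset.sum_comm]
  apply Finset.sum_congr rfl
  intro t _
  rw [Finset.sum_boole]
  simp

theorem sum_lev' (a : Q → ℕ) (h : ℕ) (ha : ∀ x, a x ≤ h) :
    ∑ x, a x = ∑ t ∈ range h, (lev a t).card := sum_lev a univ h ha

theorem even_card_symm (Z : Finset Q) (hneg : ∀ z ∈ Z, -z ∈ Z) (h0 : ∀ z ∈ Z, -z ≠ z) :
    Z.card % 2 = 0 := by
  have h1 : ∑ z ∈ Z, (1 : ZMod 2) = 0 := by
    apply Finset.sum_involution (fun z _ => -z)
    · intro z hz; decide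
    · intro z hz _; exact h0 z hz
    · intro z hz; exact neg_neg z
    · intro z hz; exact hneg z hz
  rw [Finset.sum_const, nsmul_eq_mul, mul_one, ZMod.natCast_eq_zero_iff] at h1
  omega

theorem no_two_torsion (hodd : Fintype.card Q % 2 = 1) (z : Q) (hz : -z = z) : z = 0 := by
  have h2 : 2 • z = 0 := by
    rw [two_nsmul]
    nth_rewrite 1 [← hz]
    exact neg_add_cancel z
  have h3 : Fintype.card Q • z = 0 := card_nsmul_eq_zero
  obtain ⟨k, hk⟩ : ∃ k, Fintype.card Q = 2 * k + 1 := ⟨Fintype.card Q / 2, by omega⟩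
  rw [hk, add_nsmul, one_nsmul, mul_comm, mul_nsmul', h2, nsmul_zero, zero_add] at h3
  exact h3

/-- Kneser's theorem for a difference set, in numerical form. -/
theorem kneser_sub (X Y : Finset Q) (hX : X.Nonempty) (hY : Y.Nonempty) :
    ∃ T : AddSubgroup Q, (∀ z ∈ X + -Y, ∀ g ∈ T, z + g ∈ X + -Y) ∧
      ∃ u v r : ℕ, r * (fs T).card = Fintype.card Q ∧ X.card ≤ u * (fs T).card ∧
        Y.card ≤ v * (fs T).card ∧ (u + v) * (fs T).card ≤ (X + -Y).card + (fs T).card ∧
        1 ≤ u ∧ 1 ≤ v := by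
  refine ⟨stab (X + -Y), fun z hz g hg => stab_add hg hz, ?_⟩
  have hkn := kneser' X (-Y) hX hY.neg
  obtain ⟨u, hu⟩ := card_dvd _ _ (le_stab_add (stab (X + -Y)) X)
  obtain ⟨v, hv⟩ := card_dvd _ _ (le_stab_add (stab (X + -Y)) (-Y))
  obtain ⟨r, hr⟩ := card_dvd_univ (stab (X + -Y))
  have hsub : ∀ W : Finset Q, W ⊆ W + fs (stab (X + -Y)) := by
    intro W x hx
    rw [Finset.mem_add]
    exact ⟨x, hx, 0, mem_fs.mpr (AddSubgroup.zero_mem _), add_zero x⟩
  have hXu := Finset.card_le_card (hsub X)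
  have hYv := Finset.card_le_card (hsub (-Y))
  rw [card_neg'] at hYv
  have hXp : 0 < X.card := Finset.card_pos.mpr hX
  have hYp : 0 < Y.card := Finset.card_pos.mpr hY
  refine ⟨u, v, r, by rw [hr, mul_comm], by rw [mul_comm, ← hu]; exact hXu,
    by rw [mul_comm, ← hv]; exact hYv, ?_, ?_, ?_⟩
  · rw [add_mul, mul_comm u, mul_comm v, ← hu, ← hv]; exact hkn
  · rcases Nat.eq_zero_or_pos u with rfl | h
    · rw [mul_zero] at hu; omega
    · exact h
  · rcases Nat.eq_zero_or_pos v with rfl | h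
    · rw [mul_zero] at hv; omega
    · exact h

theorem step0_pair (hdiv : ∀ r, r ∣ Fintype.card Q → r % 4 = 1) (a : Q → ℕ) (h : ℕ)
    (hb : ∀ k, a k + a (-k) ≤ h)
    (hfull : ∀ x y, h < a x + a y → a (x - y) = 0 ∧ a (-(x - y)) = 0)
    (hJ : 2 * (lev a 0).card + 1 ≤ Fintype.card Q) (t t' : ℕ) (htt : t ≤ t')
    (hsum : t + t' + 1 = h) :
    2 * ((lev a t).card + (lev a t').card) + 1 ≤ Fintype.card Q := by
  have hodd : Fintype.card Q % 2 = 1 := by have := hdiv _ dvd_rfl; omega
  rcases (lev a t').eq_empty_or_nonempty with hemp | hne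
  · rw [hemp, Finset.card_empty]
    have := Finset.card_le_card (lev_anti a (Nat.zero_le t))
    omega
  set X := lev a t' with hX
  set Y := lev a t with hY
  have hXY : X ⊆ Y := lev_anti a htt
  have hYne : Y.Nonempty := hne.mono hXY
  obtain ⟨T, hper, u, v, r, hr, hu, hv, huv, hu1, hv1⟩ := kneser_sub X Y hne hYne
  set D := X + -Y with hD
  set J := lev a 0 with hJdef
  set JJ := J ∪ -J with hJJ
  have hτ : 0 < (fs T).card := fs_card_pos T
  have memD : ∀ z ∈ D, ∃ x ∈ X, ∃ y ∈ Y, z = x - y := by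
    intro z hz
    rw [hD, Finset.mem_add] at hz
    obtain ⟨x, hx, y, hy, rfl⟩ := hz
    exact ⟨x, hx, -y, Finset.mem_neg'.mp hy, by abel⟩
  have hdisj : ∀ z ∈ D, z ∉ JJ := by
    intro z hz hzJ
    obtain ⟨x, hx, y, hy, rfl⟩ := memD z hz
    rw [hX, mem_lev] at hx
    rw [hY, mem_lev] at hy
    have := hfull x y (by omega)
    rw [hJJ, Finset.mem_union, Finset.mem_neg', hJdef, mem_lev, mem_lev] at hzJ
    rcases hzJ with h1 | h1
    · omega
    · omega
  set Z := JJ + fs T with hZ
  have hZD : Disjoint Z D := by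
    rw [Finset.disjoint_left]
    intro z hz hzD
    rw [hZ, Finset.mem_add] at hz
    obtain ⟨w, hw, g, hg, rfl⟩ := hz
    have := hper _ hzD (-g) (T.neg_mem (mem_fs.mp hg))
    rw [add_neg_cancel_right] at this
    exact hdisj w this hw
  have hZDcard : Z.card + D.card ≤ Fintype.card Q := by
    rw [← Finset.card_union_of_disjoint hZD]
    exact Finset.card_le_univ _
  have h0D : (0 : Q) ∈ D := by
    obtain ⟨x, hx⟩ := hne
    rw [hD, Finset.mem_add]
    exact ⟨x, hx, -x, Finset.neg_mem_neg (hXY hx), add_neg_cancel x⟩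
  have h0Z : (0 : Q) ∉ Z := fun h => Finset.disjoint_left.mp hZD h h0D
  have hZneg : ∀ z ∈ Z, -z ∈ Z := by
    intro z hz
    rw [hZ, Finset.mem_add] at hz ⊢
    obtain ⟨w, hw, g, hg, rfl⟩ := hz
    refine ⟨-w, ?_, -g, mem_fs.mpr (T.neg_mem (mem_fs.mp hg)), by abel⟩
    rw [hJJ, Finset.mem_union, Finset.mem_neg'] at hw ⊢
    rw [neg_neg]
    exact hw.symm
  have hZeven : Z.card % 2 = 0 := by
    apply even_card_symm Z hZneg
    intro z hz hzz
    have := no_two_torsion hodd z hzz
    rw [this] at hz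
    exact h0Z hz
  obtain ⟨z, hz⟩ := card_dvd T Z (le_stab_add T JJ)
  have hτodd : (fs T).card % 2 = 1 := by
    by_contra hcon
    have : 2 ∣ Fintype.card Q := by rw [← hr]; exact Dvd.dvd.mul_left (by omega) _
    omega
  have hzeven : z % 2 = 0 := by
    by_contra hcon
    have : Z.card % 2 = 1 := by
      rw [hz, Nat.mul_mod, hτodd]; omega
    omega
  have hr4 : r % 4 = 1 := hdiv r ⟨_, hr.symm⟩
  obtain ⟨l, hl⟩ : ∃ l, r = 4 * l + 1 := ⟨r / 4, by omega⟩
  have hcount : u + v + z ≤ r + 1 := by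
    have : (fs T).card * (u + v + z) ≤ (fs T).card * (r + 1) := by nlinarith
    exact Nat.le_of_mul_le_mul_left this hτ
  rcases Nat.lt_or_ge (2 * l + 1) z with h1 | h1
  · have huv2 : u + v ≤ 2 * l := by omega
    have : (u + v) * (fs T).card ≤ (2 * l) * (fs T).card := Nat.mul_le_mul_right _ huv2
    rw [← hr, hl]
    nlinarith
  · have hz2 : z ≤ 2 * l := by omega
    have hsub : X ∪ -Y ⊆ Z := by
      intro x hx
      rw [hZ, Finset.mem_add]
      refine ⟨x, ?_, 0, mem_fs.mpr T.zero_mem, add_zero x⟩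
      rw [hJJ, Finset.mem_union]
      rw [Finset.mem_union] at hx
      rcases hx with hx | hx
      · left
        rw [hX, mem_lev] at hx
        rw [hJdef, mem_lev]; omega
      · right
        rw [Finset.mem_neg', hY, mem_lev] at hx
        rw [Finset.mem_neg', hJdef, mem_lev]; omega
    have hd : Disjoint X (-Y) := by
      rw [Finset.disjoint_left]
      intro x hx hx'
      rw [hX, mem_lev] at hx
      rw [Finset.mem_neg', hY, mem_lev] at hx'
      have := hb x
      omega
    have hc := Finset.card_le_card hsub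
    rw [Finset.card_union_of_disjoint hd, card_neg', hz] at hc
    have : (fs T).card * z ≤ (fs T).card * (2 * l) := Nat.mul_le_mul_left _ hz2
    rw [← hr, hl]
    nlinarith

theorem step0 (hdiv : ∀ r, r ∣ Fintype.card Q → r % 4 = 1) (a : Q → ℕ) (h : ℕ)
    (hb : ∀ k, a k + a (-k) ≤ h)
    (hfull : ∀ x y, h < a x + a y → a (x - y) = 0 ∧ a (-(x - y)) = 0)
    (hJ : 2 * (lev a 0).card + 1 ≤ Fintype.card Q) :
    4 * (∑ x, a x) + h ≤ h * Fintype.card Q := by
  have hah : ∀ x, a x ≤ h := fun x => by have := hb x; omega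
  rw [sum_lev' a h hah]
  have h1 : ∑ t ∈ range h, (lev a (h - 1 - t)).card = ∑ t ∈ range h, (lev a t).card :=
    Finset.sum_range_reflect (fun t => (lev a t).card) h
  have h2 : ∀ t ∈ range h, 2 * ((lev a t).card + (lev a (h - 1 - t)).card) + 1
      ≤ Fintype.card Q := by
    intro t ht
    rw [Finset.mem_range] at ht
    rcases Nat.le_total t (h - 1 - t) with h3 | h3
    · exact step0_pair hdiv a h hb hfull hJ t (h - 1 - t) h3 (by omega)
    · have := step0_pair hdiv a h hb hfull hJ (h - 1 - t) t h3 (by omega)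
      omega
  have h3 := Finset.sum_le_sum h2
  rw [Finset.sum_add_distrib, ← Finset.mul_sum, Finset.sum_add_distrib, h1, Finset.sum_const,
    Finset.sum_const, card_range, smul_eq_mul, smul_eq_mul] at h3
  omega

end

end Pool.Agent.Helper549
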