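import Mathlib
import Pool.Agent.Helper549.SFLevel

set_option autoImplicit false
set_option linter.unusedSectionVars false
set_option linter.unusedVariables false

open scoped Pointwise
open Finset

namespace Pool.Agent.Helper549

open Kneser

-- rho = 5
theorem numA1 (x j μ F R : ℝ) (h0 : F + R ≤ 1 - 2 * x) (hF : 2 * j + 5 * x ≤ 5 * F)
    (hR : 10 * x + 4 * μ - 10 * μ * j ≤ 10 * R) (hj : j ≤ 3 / 5)
    (hμ : 12 / 25 < μ) (hμ2 : μ ≤ 3 / 5) (hx : 6 / 25 ≤ x) : False := by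
  nlinarith [mul_nonneg (sub_nonneg.mpr hj) (sub_nonneg.mpr hμ.le)]

theorem numA2 (x j μ F R : ℝ) (h0 : F + R ≤ 1 - 2 * x) (hF : 2 * j + 5 * x ≤ 5 * F)
    (hR : (1 - j) * (5 * x - μ) ≤ (5 * j - 1) * R) (hj : 3 / 5 ≤ j) (hj1 : j ≤ 1)
    (hμ2 : μ ≤ 3 / 5) (hx : 6 / 25 ≤ x) : False := by
  have h1 : R ≤ 1 - 3 * x - 2 / 5 * j := by linarith
  have h2 : (5 * j - 1) * R ≤ (5 * j - 1) * (1 - 3 * x - 2 / 5 * j) :=
    mul_le_mul_of_nonneg_left h1 (by linarith)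
  have h3 : (1 - j) * (5 * (6 / 25) - 3 / 5) ≤ (1 - j) * (5 * x - μ) :=
    mul_le_mul_of_nonneg_left (by linarith) (by linarith)
  have h4 : (5 * j - 1) * (1 - 3 * x - 2 / 5 * j) ≤ (5 * j - 1) * (1 - 3 * (6 / 25) - 2 / 5 * j) :=
    mul_le_mul_of_nonneg_left (by linarith) (by linarith)
  nlinarith [sq_nonneg (j - 3 / 5)]

theorem numA3 (x j μ F R : ℝ) (h0 : F + R ≤ 1 - 2 * x)
    (hF : j ≤ F + 2 * (1 - μ) * (μ * j - x))
    (hR : 10 * x + 4 * μ - 10 * μ * j ≤ 10 * R) (hj0 : 1 / 2 ≤ j) (hj : j ≤ 3 / 5)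
    (hμ : 3 / 5 < μ) (hμ2 : μ ≤ 1) (hx : 6 / 25 ≤ x) : False := by
  -- 1 ≥ j (1-2μ+2μ²) + (5-2μ) x - (j - 2/5) μ
  have h1 : j * (1 - 2 * μ + 2 * μ ^ 2) + (5 - 2 * μ) * x - (j - 2 / 5) * μ ≤ 1 := by nlinarith
  have h2 : (5 - 2 * μ) * (6 / 25) ≤ (5 - 2 * μ) * x :=
    mul_le_mul_of_nonneg_left hx (by linarith)
  have h3 : 0 ≤ (3 / 5 - j) * ((1 - μ) * (2 * μ - 1)) :=
    mul_nonneg (by linarith) (mul_nonneg (by linarith) (by linarith))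
  nlinarith [sq_nonneg (μ - 3 / 4)]

theorem numA4 (x j μ F R : ℝ) (h0 : F + R ≤ 1 - 2 * x)
    (hF : j ≤ F + 2 * (1 - μ) * (μ * j - x))
    (hR : (1 - j) * (5 * x - μ) ≤ (5 * j - 1) * R) (hj : 3 / 5 ≤ j) (hj1 : j ≤ 1)
    (hμ : 3 / 5 < μ) (hμ2 : μ ≤ 1) (hx : 6 / 25 ≤ x) : False := by
  have h1 : R ≤ 1 - j * (1 - 2 * μ + 2 * μ ^ 2) - (4 - 2 * μ) * x := by nlinarith
  have h2 : (5 * j - 1) * R ≤ (5 * j - 1) * (1 - j * (1 - 2 * μ + 2 * μ ^ 2) - (4 - 2 * μ) * x) :=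
    mul_le_mul_of_nonneg_left h1 (by linarith)
  have h3 : (1 - j) * (5 * (6 / 25) - μ) ≤ (1 - j) * (5 * x - μ) :=
    mul_le_mul_of_nonneg_left (by linarith) (by linarith)
  have h4 : (5 * j - 1) * (1 - j * (1 - 2 * μ + 2 * μ ^ 2) - (4 - 2 * μ) * x)
      ≤ (5 * j - 1) * (1 - j * (1 - 2 * μ + 2 * μ ^ 2) - (4 - 2 * μ) * (6 / 25)) := by
    apply mul_le_mul_of_nonneg_left _ (by linarith)
    nlinarith
  have h5 : (1 - j) * (6 / 5 - μ) ≤ (5 * j - 1) * (1 - j * (1 - 2 * μ + 2 * μ ^ 2) - (4 - 2 * μ) * (6 / 25)) := by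
    linarith
  nlinarith [sq_nonneg (μ - 3 / 4), sq_nonneg (j - 3 / 5), mul_nonneg (sub_nonneg.mpr hj) (sub_nonneg.mpr hμ.le), mul_nonneg (sub_nonneg.mpr hj1) (sub_nonneg.mpr hμ2), mul_nonneg (sub_nonneg.mpr hj) (sub_nonneg.mpr hμ2),  mul_nonneg (sub_nonneg.mpr hj1) (sub_nonneg.mpr hμ.le)]

-- rho = 13
theorem numB1 (x j μ F R : ℝ) (h0 : F + R ≤ 1 - 2 * x) (hF : 2 * j + 5 * x ≤ 5 * F)
    (hR : 26 * x + 12 * μ - 26 * μ * j ≤ 26 * R) (hj : j ≤ 7 / 13)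
    (hμ : 6 / 13 < μ) (hμ2 : μ ≤ 3 / 5) (hx : 3 / 13 < x) : False := by
  nlinarith [mul_nonneg (sub_nonneg.mpr hj) (sub_nonneg.mpr hμ.le)]

theorem numB2 (x j μ F R : ℝ) (h0 : F + R ≤ 1 - 2 * x) (hF : 2 * j + 5 * x ≤ 5 * F)
    (hR : (1 - j) * (13 * x - μ) ≤ (13 * j - 1) * R) (hj : 7 / 13 ≤ j) (hj1 : j ≤ 1)
    (hμ2 : μ ≤ 3 / 5) (hx : 3 / 13 < x) : False := by
  have h1 : R ≤ 1 - 3 * x - 2 / 5 * j := by linarith
  have h2 : (13 * j - 1) * R ≤ (13 * j - 1) * (1 - 3 * x - 2 / 5 * j) :=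
    mul_le_mul_of_nonneg_left h1 (by linarith)
  have h3 : (1 - j) * (13 * (3 / 13) - 3 / 5) ≤ (1 - j) * (13 * x - μ) :=
    mul_le_mul_of_nonneg_left (by linarith) (by linarith)
  have h4 : (13 * j - 1) * (1 - 3 * x - 2 / 5 * j) ≤ (13 * j - 1) * (1 - 3 * (3 / 13) - 2 / 5 * j) :=
    mul_le_mul_of_nonneg_left (by linarith) (by linarith)
  nlinarith [sq_nonneg (j - 3 / 5)]

theorem numB3 (x j μ F R : ℝ) (h0 : F + R ≤ 1 - 2 * x)
    (hF : j ≤ F + 2 * (1 - μ) * (μ * j - x))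
    (hR : 26 * x + 12 * μ - 26 * μ * j ≤ 26 * R) (hj0 : 1 / 2 ≤ j) (hj : j ≤ 7 / 13)
    (hμ : 3 / 5 < μ) (hμ2 : μ ≤ 1) (hx : 3 / 13 < x) : False := by
  have h1 : j * (1 - 2 * μ + 2 * μ ^ 2) + (5 - 2 * μ) * x - (j - 6 / 13) * μ ≤ 1 := by nlinarith
  have h2 : (5 - 2 * μ) * (3 / 13) ≤ (5 - 2 * μ) * x :=
    mul_le_mul_of_nonneg_left hx.le (by linarith)
  have h3 : 0 ≤ (7 / 13 - j) * ((1 - μ) * (2 * μ - 1)) :=
    mul_nonneg (by linarith) (mul_nonneg (by linarith) (by linarith))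
  nlinarith [sq_nonneg (μ - 3 / 4)]

theorem numB4 (x j μ F R : ℝ) (h0 : F + R ≤ 1 - 2 * x)
    (hF : j ≤ F + 2 * (1 - μ) * (μ * j - x))
    (hR : (1 - j) * (13 * x - μ) ≤ (13 * j - 1) * R) (hj : 7 / 13 ≤ j) (hj1 : j ≤ 1)
    (hμ : 3 / 5 < μ) (hμ2 : μ ≤ 1) (hx : 3 / 13 < x) : False := by
  have h1 : R ≤ 1 - j * (1 - 2 * μ + 2 * μ ^ 2) - (4 - 2 * μ) * x := by nlinarith
  have h2 : (13 * j - 1) * R ≤ (13 * j - 1) * (1 - j * (1 - 2 * μ + 2 * μ ^ 2) - (4 - 2 * μ) * x) :=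
    mul_le_mul_of_nonneg_left h1 (by linarith)
  have h3 : (1 - j) * (13 * (3 / 13) - μ) ≤ (1 - j) * (13 * x - μ) :=
    mul_le_mul_of_nonneg_left (by linarith) (by linarith)
  have h4 : (13 * j - 1) * (1 - j * (1 - 2 * μ + 2 * μ ^ 2) - (4 - 2 * μ) * x)
      ≤ (13 * j - 1) * (1 - j * (1 - 2 * μ + 2 * μ ^ 2) - (4 - 2 * μ) * (3 / 13)) := by
    apply mul_le_mul_of_nonneg_left _ (by linarith)
    nlinarith
  have h5 : (1 - j) * (3 - μ) ≤ (13 * j - 1) * (1 - j * (1 - 2 * μ + 2 * μ ^ 2) - (4 - 2 * μ) * (3 / 13)) := by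
    linarith
  nlinarith [sq_nonneg (μ - 3 / 4), sq_nonneg (j - 3 / 5), mul_nonneg (sub_nonneg.mpr hj) (sub_nonneg.mpr hμ.le), mul_nonneg (sub_nonneg.mpr hj1) (sub_nonneg.mpr hμ2), mul_nonneg (sub_nonneg.mpr hj) (sub_nonneg.mpr hμ2),  mul_nonneg (sub_nonneg.mpr hj1) (sub_nonneg.mpr hμ.le)]

section

variable {Q : Type*} [AddCommGroup Q] [Fintype Q] [DecidableEq Q]

/-- The information on the fibres obtained from Kneser's theorem: for nonempty fibres over `x` and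
`y`, the fibre of the difference set over `x - y` is large. `P` restricts the index of the
stabiliser. -/
def PairCond (P : ℕ → Prop) (a d : Q → ℕ) (h : ℕ) : Prop :=
  ∀ x y, 0 < a x → 0 < a y → ∃ g m u v : ℕ, 0 < g ∧ m * g = h ∧ P m ∧ a x ≤ u * g ∧
    a y ≤ v * g ∧ (u + v) * g ≤ d (x - y) + g ∧ 1 ≤ u ∧ 1 ≤ v

theorem pair_le {P : ℕ → Prop} {a d : Q → ℕ} {h : ℕ} (H : PairCond P a d h) {x y : Q}
    (hx : 0 < a x) (hy : 0 < a y) : a x ≤ d (x - y) := by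
  obtain ⟨g, m, u, v, hg, hm, hP, hu, hv, huv, hu1, hv1⟩ := H x y hx hy
  have : 1 * g ≤ v * g := Nat.mul_le_mul_right _ hv1
  nlinarith

theorem pair_full {P : ℕ → Prop} {a d : Q → ℕ} {h : ℕ} (H : PairCond P a d h) {x y : Q}
    (hx : 0 < a x) (hy : 0 < a y) (hxy : h < a x + a y) : h ≤ d (x - y) := by
  obtain ⟨g, m, u, v, hg, hm, hP, hu, hv, huv, hu1, hv1⟩ := H x y hx hy
  have h1 : m * g < (u + v) * g := by nlinarith
  have h2 : m < u + v := lt_of_mul_lt_mul_right h1 (Nat.zero_le g)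
  have h3 : (m + 1) * g ≤ (u + v) * g := Nat.mul_le_mul_right _ h2
  nlinarith

/-- Index restrictions for case A. -/
def PA (m : ℕ) : Prop := m = 1 ∨ m = 5 ∨ 13 ≤ m

/-- Index restrictions for case B. -/
def PB (m : ℕ) : Prop := m = 1 ∨ m = 13 ∨ 17 ≤ m

theorem pairA2 {a d : Q → ℕ} {h : ℕ} (H : PairCond PA a d h) {x y : Q}
    (hx : 12 * h < 25 * a x) (hy : 0 < a y) :
    h ≤ d (x - y) ∨ 2 * h + 5 * a y ≤ 5 * d (x - y) := by
  obtain ⟨g, m, u, v, hg, hm, hP, hu, hv, huv, hu1, hv1⟩ := H x y (by omega) hy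
  rcases hP with rfl | rfl | h13
  · left; nlinarith
  · right
    have hu3 : 3 ≤ u := by
      by_contra hcon
      have : u * g ≤ 2 * g := Nat.mul_le_mul_right _ (by omega)
      omega
    have : 3 * g ≤ u * g := Nat.mul_le_mul_right _ hu3
    nlinarith
  · right
    have : 13 * g ≤ m * g := Nat.mul_le_mul_right _ h13
    nlinarith

theorem pairA3 {a d : Q → ℕ} {h : ℕ} (H : PairCond PA a d h) {x y : Q}
    (hx : 3 * h < 5 * a x) (hy : 0 < a y) :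
    h ≤ d (x - y) ∨ h + 2 * a y ≤ 2 * d (x - y) := by
  obtain ⟨g, m, u, v, hg, hm, hP, hu, hv, huv, hu1, hv1⟩ := H x y (by omega) hy
  rcases hP with rfl | rfl | h13
  · left; nlinarith
  · right
    have hu3 : 4 ≤ u := by
      by_contra hcon
      have : u * g ≤ 3 * g := Nat.mul_le_mul_right _ (by omega)
      omega
    have : 4 * g ≤ u * g := Nat.mul_le_mul_right _ hu3
    nlinarith
  · right
    have : 13 * g ≤ m * g := Nat.mul_le_mul_right _ h13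
    nlinarith

theorem pairA4 {a d : Q → ℕ} {h : ℕ} (H : PairCond PA a d h) {x y : Q}
    (hx : 0 < a x) (hy : 0 < a y) (hd : 5 * d (x - y) < 2 * h) :
    25 * (a x + a y) ≤ 12 * h := by
  obtain ⟨g, m, u, v, hg, hm, hP, hu, hv, huv, hu1, hv1⟩ := H x y hx hy
  rcases hP with rfl | rfl | h13
  · exfalso; nlinarith
  · have huv2 : u + v ≤ 2 := by
      by_contra hcon
      have : 3 * g ≤ (u + v) * g := Nat.mul_le_mul_right _ (by omega)
      nlinarith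
    have : (u + v) * g ≤ 2 * g := Nat.mul_le_mul_right _ huv2
    nlinarith
  · have : 13 * g ≤ m * g := Nat.mul_le_mul_right _ h13
    nlinarith

theorem pairB2 {a d : Q → ℕ} {h : ℕ} (H : PairCond PB a d h) {x y : Q}
    (hx : 6 * h < 13 * a x) (hy : 0 < a y) :
    h ≤ d (x - y) ∨ 2 * h + 5 * a y ≤ 5 * d (x - y) := by
  obtain ⟨g, m, u, v, hg, hm, hP, hu, hv, huv, hu1, hv1⟩ := H x y (by omega) hy
  rcases hP with rfl | rfl | h13
  · left; nlinarith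
  · right
    have hu3 : 7 ≤ u := by
      by_contra hcon
      have : u * g ≤ 6 * g := Nat.mul_le_mul_right _ (by omega)
      omega
    have : 7 * g ≤ u * g := Nat.mul_le_mul_right _ hu3
    nlinarith
  · right
    have : 17 * g ≤ m * g := Nat.mul_le_mul_right _ h13
    nlinarith

theorem pairB3 {a d : Q → ℕ} {h : ℕ} (H : PairCond PB a d h) {x y : Q}
    (hx : 3 * h < 5 * a x) (hy : 0 < a y) :
    h ≤ d (x - y) ∨ h + 2 * a y ≤ 2 * d (x - y) := by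
  obtain ⟨g, m, u, v, hg, hm, hP, hu, hv, huv, hu1, hv1⟩ := H x y (by omega) hy
  rcases hP with rfl | rfl | h13
  · left; nlinarith
  · right
    nlinarith
  · right
    have : 17 * g ≤ m * g := Nat.mul_le_mul_right _ h13
    nlinarith

theorem pairB4 {a d : Q → ℕ} {h : ℕ} (H : PairCond PB a d h) {x y : Q}
    (hx : 0 < a x) (hy : 0 < a y) (hd : 5 * d (x - y) < 2 * h) :
    13 * (a x + a y) ≤ 6 * h := by
  obtain ⟨g, m, u, v, hg, hm, hP, hu, hv, huv, hu1, hv1⟩ := H x y hx hy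
  rcases hP with rfl | rfl | h13
  · exfalso; nlinarith
  · have huv2 : u + v ≤ 6 := by
      by_contra hcon
      have : 7 * g ≤ (u + v) * g := Nat.mul_le_mul_right _ (by omega)
      nlinarith
    have : (u + v) * g ≤ 6 * g := Nat.mul_le_mul_right _ huv2
    nlinarith
  · have : 17 * g ≤ m * g := Nat.mul_le_mul_right _ h13
    nlinarith

end

end Pool.Agent.Helper549
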