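import Mathlib
import Pool.Agent.Helper549.SFNum

set_option autoImplicit false
set_option linter.unusedSectionVars false
set_option linter.unusedVariables false

open scoped Pointwise
open Finset

namespace Pool.Agent.Helper549

open Kneser

section

variable {Q : Type*} [AddCommGroup Q] [Fintype Q] [DecidableEq Q]

theorem sum_shift (a : Q → ℕ) (k : Q) : ∑ x, a (x - k) = ∑ x, a x :=
  Fintype.sum_equiv (Equiv.subRight k) _ _ (fun x => rfl)

theorem step1A_pt {a d : Q → ℕ} {h : ℕ} (H1 : ∀ k, a k + a (-k) + d k ≤ h)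
    (H2 : PairCond PA a d h) (k : Q) (hk : 3 * h < 5 * (a k + a (-k)))
    (hM : ∀ x, 25 * a x ≤ 12 * h) (x : Q) : 25 * (a x + a (x - k)) ≤ 12 * h := by
  rcases Nat.eq_zero_or_pos (a x) with h1 | h1
  · have := hM (x - k); omega
  rcases Nat.eq_zero_or_pos (a (x - k)) with h2 | h2
  · have := hM x; omega
  apply pairA4 H2 h1 h2
  have h3 : x - (x - k) = k := by abel
  rw [h3]
  have := H1 k
  omega

theorem step1A {a d : Q → ℕ} {h : ℕ} (H1 : ∀ k, a k + a (-k) + d k ≤ h)
    (H2 : PairCond PA a d h) (k : Q) (hk : 3 * h < 5 * (a k + a (-k)))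
    (hM : ∀ x, 25 * a x ≤ 12 * h) : 25 * ∑ x, a x ≤ 6 * h * Fintype.card Q := by
  have key : ∀ x ∈ (univ : Finset Q), 25 * (a x + a (x - k)) ≤ 12 * h := by
    intro x _
    rcases Nat.eq_zero_or_pos (a x) with h1 | h1
    · have := hM (x - k); omega
    rcases Nat.eq_zero_or_pos (a (x - k)) with h2 | h2
    · have := hM x; omega
    apply pairA4 H2 h1 h2
    have h3 : x - (x - k) = k := by abel
    rw [h3]
    have := H1 k
    omega
  have hs := Finset.sum_le_sum key
  rw [← Finset.mul_sum, Finset.sum_add_distrib, sum_shift, Finset.sum_const, smul_eq_mul,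
    Finset.card_univ] at hs
  nlinarith

theorem step1B {a d : Q → ℕ} {h : ℕ} (H1 : ∀ k, a k + a (-k) + d k ≤ h)
    (H2 : PairCond PB a d h) (k : Q) (hk : 3 * h < 5 * (a k + a (-k)))
    (hM : ∀ x, 13 * a x ≤ 6 * h) : 13 * ∑ x, a x ≤ 3 * h * Fintype.card Q := by
  have key : ∀ x ∈ (univ : Finset Q), 13 * (a x + a (x - k)) ≤ 6 * h := by
    intro x _
    rcases Nat.eq_zero_or_pos (a x) with h1 | h1
    · have := hM (x - k); omega
    rcases Nat.eq_zero_or_pos (a (x - k)) with h2 | h2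
    · have := hM x; omega
    apply pairB4 H2 h1 h2
    have h3 : x - (x - k) = k := by abel
    rw [h3]
    have := H1 k
    omega
  have hs := Finset.sum_le_sum key
  rw [← Finset.mul_sum, Finset.sum_add_distrib, sum_shift, Finset.sum_const, smul_eq_mul,
    Finset.card_univ] at hs
  nlinarith

/-- Kneser's theorem for a level set and a set of more than half the size. -/
theorem kneser_half {ρ : ℕ} (hρ : 0 < ρ) (hdiv : ∀ r, r ∣ Fintype.card Q → r = 1 ∨ ρ ≤ r)
    (X Y : Finset Q) (hX : X.Nonempty) (hY : Fintype.card Q + 1 ≤ 2 * Y.card) :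
    (Fintype.card Q ≤ (X + -Y).card ∨
      (2 * ρ * X.card + ρ * Fintype.card Q ≤ 2 * ρ * (X + -Y).card + Fintype.card Q ∧
        ρ * X.card + ρ * Y.card ≤ ρ * (X + -Y).card + Fintype.card Q)) ∧
    Y.card ≤ (X + -Y).card ∧ (X + -Y).card ≤ Fintype.card Q := by
  have hYne : Y.Nonempty := by
    rw [← Finset.card_pos]; omega
  refine ⟨?_, ?_, Finset.card_le_univ _⟩
  · obtain ⟨T, _, u, v, r, hr, hu, hv, huv, hu1, hv1⟩ := kneser_sub X Y hX hYne
    have hτ : 0 < (fs T).card := fs_card_pos T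
    set τ := (fs T).card with hτdef
    set W := (X + -Y).card with hW
    rcases hdiv r ⟨τ, hr.symm⟩ with rfl | hrρ
    · left
      have : 2 * τ ≤ (u + v) * τ := Nat.mul_le_mul_right _ (by omega)
      omega
    · right
      have h1 : ρ * τ ≤ Fintype.card Q := by
        rw [← hr]; exact Nat.mul_le_mul_right _ hrρ
      have h2 : r < 2 * v := by
        have : r * τ < (2 * v) * τ := by
          rw [hr]; nlinarith
        exact lt_of_mul_lt_mul_right this (Nat.zero_le τ)
      have h3 : (r + 1) * τ ≤ (2 * v) * τ := Nat.mul_le_mul_right _ h2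
      constructor
      · -- 2W ≥ 2|X| + q - τ
        have h4 : 2 * X.card + Fintype.card Q ≤ 2 * W + τ := by nlinarith
        nlinarith
      · have h4 : X.card + Y.card ≤ W + τ := by nlinarith
        nlinarith
  · calc Y.card = (-Y).card := (card_neg' Y).symm
      _ ≤ (X + -Y).card := Finset.card_le_card_add_left hX

theorem step2_core {ρ : ℕ} (hρ : 0 < ρ) (hdiv : ∀ r, r ∣ Fintype.card Q → r = 1 ∨ ρ ≤ r)
    {P : ℕ → Prop} {a d : Q → ℕ} {h : ℕ} (H1 : ∀ k, a k + a (-k) + d k ≤ h)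
    (H2 : PairCond P a d h) (i0 : Q) (hmax : ∀ x, a x ≤ a i0) (hpos : 0 < a i0)
    (hJ : Fintype.card Q + 1 ≤ 2 * (lev a 0).card) :
    ∃ L : ℕ, (∑ y ∈ lev a 0, d (i0 - y)) + L + 2 * ∑ x, a x
        ≤ h * Fintype.card Q + a i0 * (lev a 0).card ∧
      (2 * ρ * (lev a 0).card ≤ (ρ + 1) * Fintype.card Q →
        2 * ρ * (∑ x, a x) + a i0 * ρ * Fintype.card Q ≤ 2 * ρ * L + a i0 * Fintype.card Q) ∧
      ((ρ + 1) * Fintype.card Q ≤ 2 * ρ * (lev a 0).card →
        ((Fintype.card Q : ℝ) - (lev a 0).card) *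
            (ρ * ((∑ x, a x : ℕ) : ℝ) - Fintype.card Q * a i0) ≤
          (ρ * ((lev a 0).card : ℝ) - Fintype.card Q) * (L - a i0 * (lev a 0).card)) := by
  set J := lev a 0 with hJdef
  set q := Fintype.card Q with hq
  set M := a i0 with hM
  set S := ∑ x, a x with hS
  have hMh : M ≤ h := by have := H1 i0; omega
  have hdh : ∀ k, d k ≤ h := fun k => by have := H1 k; omega
  set I := J.image (fun y => i0 - y) with hI
  have hIcard : I.card = J.card := by
    rw [hI, Finset.card_image_of_injective]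
    intro y y' hyy
    exact sub_right_injective hyy
  have hIsum : ∑ k ∈ I, d k = ∑ y ∈ J, d (i0 - y) := by
    rw [hI, Finset.sum_image]
    intro y _ y' _ hyy
    exact sub_right_injective hyy
  have hSlev : S = ∑ t ∈ range M, (lev a t).card := sum_lev' a M hmax
  -- complement sum
  have hcomp : ∑ t ∈ range M, (lev a t + -J).card ≤ (∑ k ∈ Iᶜ, d k) + M * J.card := by
    have h1 : ∑ k ∈ Iᶜ, d k = ∑ t ∈ range h, (Iᶜ.filter (fun x => t < d x)).card :=
      sum_lev d Iᶜ h hdh
    have h2 : ∑ t ∈ range M, (Iᶜ.filter (fun x => t < d x)).card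
        ≤ ∑ t ∈ range h, (Iᶜ.filter (fun x => t < d x)).card := by
      apply Finset.sum_le_sum_of_subset
      intro t ht
      rw [Finset.mem_range] at ht ⊢
      omega
    have h3 : ∀ t ∈ range M, (lev a t + -J).card
        ≤ (Iᶜ.filter (fun x => t < d x)).card + J.card := by
      intro t ht
      have hsub : lev a t + -J ⊆ (Iᶜ.filter (fun x => t < d x)) ∪ I := by
        intro k hk
        by_cases hkI : k ∈ I
        · exact Finset.mem_union_right _ hkI
        · apply Finset.mem_union_left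
          rw [Finset.mem_filter, Finset.mem_compl]
          refine ⟨hkI, ?_⟩
          rw [Finset.mem_add] at hk
          obtain ⟨x, hx, y, hy, rfl⟩ := hk
          rw [mem_lev] at hx
          rw [Finset.mem_neg', hJdef, mem_lev] at hy
          have := pair_le H2 (x := x) (y := -y) (by omega) hy
          rw [sub_neg_eq_add] at this
          omega
      calc (lev a t + -J).card ≤ ((Iᶜ.filter (fun x => t < d x)) ∪ I).card :=
            Finset.card_le_card hsub
        _ ≤ (Iᶜ.filter (fun x => t < d x)).card + I.card := Finset.card_union_le _ _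
        _ = _ := by rw [hIcard]
    have h4 := Finset.sum_le_sum h3
    rw [Finset.sum_add_distrib, Finset.sum_const, card_range, smul_eq_mul] at h4
    omega
  have htot : (∑ k ∈ I, d k) + ∑ k ∈ Iᶜ, d k = ∑ k, d k := Finset.sum_add_sum_compl I d
  have hH1sum : 2 * S + ∑ k, d k ≤ h * q := by
    have h1 := Finset.sum_le_sum (fun (k : Q) (_ : k ∈ univ) => H1 k)
    rw [Finset.sum_add_distrib, Finset.sum_add_distrib, Finset.sum_const, smul_eq_mul,
      Finset.card_univ, ← hq] at h1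
    have h2 : ∑ k, a (-k) = S := Fintype.sum_equiv (Equiv.neg Q) _ _ (fun x => rfl)
    rw [h2, ← hS] at h1
    rw [mul_comm h q]
    omega
  have hlevne : ∀ t ∈ range M, (lev a t).Nonempty := by
    intro t ht
    rw [Finset.mem_range] at ht
    exact ⟨i0, mem_lev.mpr ht⟩
  have hlevJ : ∀ t, (lev a t).card ≤ J.card := fun t =>
    Finset.card_le_card (lev_anti a (Nat.zero_le t))
  refine ⟨∑ t ∈ range M, (lev a t + -J).card, ?_, ?_, ?_⟩
  · rw [← hIsum]
    omega
  · intro hsmall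
    have h1 : ∀ t ∈ range M, 2 * ρ * (lev a t).card + ρ * q ≤ 2 * ρ * (lev a t + -J).card + q := by
      intro t ht
      obtain ⟨hk1, hk2, hk3⟩ := kneser_half hρ hdiv (lev a t) J (hlevne t ht) hJ
      rcases hk1 with hk1 | hk1
      · have := hlevJ t
        nlinarith
      · exact hk1.1
    have h2 := Finset.sum_le_sum h1
    have e1 : ∑ t ∈ range M, (2 * ρ * (lev a t).card + ρ * q) = 2 * ρ * S + M * (ρ * q) := by
      rw [Finset.sum_add_distrib, Finset.sum_const, card_range, smul_eq_mul, ← Finset.mul_sum,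
        ← hSlev]
    have e2 : ∑ t ∈ range M, (2 * ρ * (lev a t + -J).card + q)
        = 2 * ρ * (∑ t ∈ range M, (lev a t + -J).card) + M * q := by
      rw [Finset.sum_add_distrib, Finset.sum_const, card_range, smul_eq_mul, ← Finset.mul_sum]
    rw [e1, e2] at h2
    rw [mul_assoc M ρ q]
    exact h2
  · intro hlarge
    have hJq : J.card ≤ q := Finset.card_le_univ _
    have c1 : (0 : ℝ) ≤ (q : ℝ) - J.card := by
      have : (J.card : ℝ) ≤ q := by exact_mod_cast hJq
      linarith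
    have c2 : (ρ : ℝ) * (q - J.card) ≤ ρ * J.card - q := by
      have : ((ρ : ℝ) + 1) * q ≤ 2 * ρ * J.card := by exact_mod_cast hlarge
      nlinarith
    have c3 : (0 : ℝ) ≤ ρ * J.card - q := le_trans (mul_nonneg (by positivity) c1) c2
    have h1 : ∀ t ∈ range M, ((q : ℝ) - J.card) * (ρ * ((lev a t).card : ℝ) - q) ≤
        (ρ * (J.card : ℝ) - q) * (((lev a t + -J).card : ℝ) - J.card) := by
      intro t ht
      obtain ⟨hk1, hk2, hk3⟩ := kneser_half hρ hdiv (lev a t) J (hlevne t ht) hJ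
      have e1 : ((lev a t).card : ℝ) ≤ J.card := by exact_mod_cast hlevJ t
      have e2 : (J.card : ℝ) ≤ ((lev a t + -J).card : ℝ) := by exact_mod_cast hk2
      have e3 : (0 : ℝ) < ρ := by exact_mod_cast hρ
      rcases hk1 with hk1 | ⟨_, hk1⟩
      · have e4 : (q : ℝ) ≤ ((lev a t + -J).card : ℝ) := by exact_mod_cast hk1
        calc ((q : ℝ) - J.card) * (ρ * ((lev a t).card : ℝ) - q)
            ≤ ((q : ℝ) - J.card) * (ρ * (J.card : ℝ) - q) := by
              apply mul_le_mul_of_nonneg_left _ c1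
              nlinarith
          _ = (ρ * (J.card : ℝ) - q) * ((q : ℝ) - J.card) := by ring
          _ ≤ _ := by
              apply mul_le_mul_of_nonneg_left _ c3
              linarith
      · have e4 : (ρ : ℝ) * (lev a t).card + ρ * J.card ≤ ρ * ((lev a t + -J).card : ℝ) + q := by
          exact_mod_cast hk1
        rcases le_or_gt ((ρ : ℝ) * (lev a t).card - q) 0 with h5 | h5
        · have l1 : ((q : ℝ) - J.card) * (ρ * ((lev a t).card : ℝ) - q) ≤ 0 :=
            mul_nonpos_of_nonneg_of_nonpos c1 h5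
          have l2 : 0 ≤ (ρ * (J.card : ℝ) - q) * (((lev a t + -J).card : ℝ) - J.card) :=
            mul_nonneg c3 (by linarith)
          linarith
        · have l1 : (ρ : ℝ) * (q - J.card) * (ρ * (lev a t).card - q)
              ≤ (ρ * J.card - q) * (ρ * (lev a t).card - q) :=
            mul_le_mul_of_nonneg_right c2 h5.le
          have l2 : (ρ * (J.card : ℝ) - q) * (ρ * (lev a t).card - q)
              ≤ (ρ * (J.card : ℝ) - q) * (ρ * (((lev a t + -J).card : ℝ) - J.card)) :=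
            mul_le_mul_of_nonneg_left (by linarith) c3
          have l3 : (ρ : ℝ) * (((q : ℝ) - J.card) * (ρ * ((lev a t).card : ℝ) - q)) ≤
              ρ * ((ρ * (J.card : ℝ) - q) * (((lev a t + -J).card : ℝ) - J.card)) := by
            nlinarith
          exact le_of_mul_le_mul_left l3 e3
    have h2 := Finset.sum_le_sum h1
    rw [← Finset.mul_sum, ← Finset.mul_sum, Finset.sum_sub_distrib, Finset.sum_sub_distrib,
      ← Finset.mul_sum, Finset.sum_const, Finset.sum_const, card_range, nsmul_eq_mul,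
      nsmul_eq_mul] at h2
    rw [hSlev]
    push_cast
    rw [mul_comm (q : ℝ) (M : ℝ)]
    exact h2


/-- Bound on the first sum, small maximum. -/
theorem first_small {a d : Q → ℕ} {h : ℕ} (i0 : Q) (hmax : ∀ x, a x ≤ a i0)
    (hM : 5 * a i0 ≤ 3 * h)
    (hp : ∀ y, 0 < a y → h ≤ d (i0 - y) ∨ 2 * h + 5 * a y ≤ 5 * d (i0 - y)) :
    2 * h * (lev a 0).card + 5 * ∑ x, a x ≤ 5 * ∑ y ∈ lev a 0, d (i0 - y) := by
  have h1 : ∀ y ∈ lev a 0, 2 * h + 5 * a y ≤ 5 * d (i0 - y) := by
    intro y hy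
    rw [mem_lev] at hy
    have := hmax y
    rcases hp y hy with h2 | h2
    · omega
    · exact h2
  have h2 := Finset.sum_le_sum h1
  rw [Finset.sum_add_distrib, Finset.sum_const, smul_eq_mul, ← Finset.mul_sum,
    ← Finset.mul_sum] at h2
  have h3 : ∑ y ∈ lev a 0, a y = ∑ y, a y := by
    apply Finset.sum_subset (Finset.subset_univ _)
    intro x _ hx
    rw [mem_lev] at hx
    omega
  rw [h3] at h2
  nlinarith

/-- Bound on the first sum, large maximum. -/
theorem first_large {a d : Q → ℕ} {h : ℕ} (i0 : Q) (hmax : ∀ x, a x ≤ a i0) (hMh : a i0 ≤ h)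
    (hM : h < 2 * a i0)
    (hle : ∀ y, 0 < a y → a i0 ≤ d (i0 - y))
    (hp : ∀ y, 0 < a y → h ≤ d (i0 - y) ∨ h + 2 * a y ≤ 2 * d (i0 - y)) :
    (h : ℝ) ^ 2 * (lev a 0).card ≤ h * ((∑ y ∈ lev a 0, d (i0 - y) : ℕ) : ℝ) +
      2 * ((h : ℝ) - a i0) * (a i0 * (lev a 0).card - ((∑ x, a x : ℕ) : ℝ)) := by
  have c1 : (0 : ℝ) ≤ (h : ℝ) - a i0 := by
    have : (a i0 : ℝ) ≤ h := by exact_mod_cast hMh
    linarith
  have h1 : ∀ y ∈ lev a 0, (h : ℝ) ^ 2 ≤ h * (d (i0 - y) : ℝ)
      + 2 * ((h : ℝ) - a i0) * (a i0 - a y) := by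
    intro y hy
    rw [mem_lev] at hy
    have e1 : (a y : ℝ) ≤ a i0 := by exact_mod_cast hmax y
    have e2 : (a i0 : ℝ) ≤ d (i0 - y) := by exact_mod_cast hle y hy
    have e3 : (h : ℝ) < 2 * a i0 := by exact_mod_cast hM
    have e4 : (0 : ℝ) ≤ h := Nat.cast_nonneg h
    have e5 : 0 ≤ ((h : ℝ) - a i0) * (a i0 - a y) := mul_nonneg c1 (by linarith)
    rcases hp y hy with h2 | h2
    · have e6 : (h : ℝ) ≤ d (i0 - y) := by exact_mod_cast h2
      nlinarith
    · have e6 : (h : ℝ) + 2 * a y ≤ 2 * d (i0 - y) := by exact_mod_cast h2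
      rcases le_or_gt (2 * (a i0 : ℝ)) (2 * a y + h) with h3 | h3
      · have e7 : (h : ℝ) * (h + 2 * a y) ≤ h * (2 * d (i0 - y)) :=
          mul_le_mul_of_nonneg_left e6 e4
        have e8 : 0 ≤ (2 * (a i0 : ℝ) - h) * (2 * a y + h - 2 * a i0) :=
          mul_nonneg (by linarith) (by linarith)
        nlinarith
      · have e7 : (h : ℝ) * (a i0) ≤ h * (d (i0 - y)) := mul_le_mul_of_nonneg_left e2 e4
        have e8 : ((h : ℝ) - a i0) * h ≤ ((h : ℝ) - a i0) * (2 * (a i0 - a y)) :=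
          mul_le_mul_of_nonneg_left (by linarith) c1
        nlinarith
  have h2 := Finset.sum_le_sum h1
  have h3 : ∑ y ∈ lev a 0, a y = ∑ y, a y := by
    apply Finset.sum_subset (Finset.subset_univ _)
    intro x _ hx
    rw [mem_lev] at hx
    omega
  rw [Finset.sum_const, nsmul_eq_mul, Finset.sum_add_distrib, ← Finset.mul_sum,
    ← Finset.mul_sum, Finset.sum_sub_distrib, Finset.sum_const, nsmul_eq_mul] at h2
  have h4 : ((∑ x, a x : ℕ) : ℝ) = ∑ y ∈ lev a 0, (a y : ℝ) := by
    rw [← h3]; push_cast; rfl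
  rw [h4]
  push_cast
  nlinarith

theorem step2A {a d : Q → ℕ} {h : ℕ} (hdiv : ∀ r, r ∣ Fintype.card Q → r = 1 ∨ 5 ≤ r)
    (H1 : ∀ k, a k + a (-k) + d k ≤ h) (H2 : PairCond PA a d h) (i0 : Q)
    (hmax : ∀ x, a x ≤ a i0) (hM : 12 * h < 25 * a i0)
    (hJ : Fintype.card Q + 1 ≤ 2 * (lev a 0).card)
    (hα : 6 * h * Fintype.card Q ≤ 25 * ∑ x, a x) : False := by
  obtain ⟨L, hL1, hL2, hL3⟩ := step2_core (ρ := 5) (by norm_num) hdiv H1 H2 i0 hmax
    (by omega) hJ
  have hMh : a i0 ≤ h := by have := H1 i0; omega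
  have hJq : (lev a 0).card ≤ Fintype.card Q := Finset.card_le_univ _
  set q := Fintype.card Q with hq
  set J := (lev a 0).card with hJdef
  set M := a i0 with hMdef
  set S := ∑ x, a x with hS
  set F := ∑ y ∈ lev a 0, d (i0 - y) with hF
  have hh : 0 < h := by omega
  have hq0 : 0 < q := by omega
  have rh : (0 : ℝ) < h := by exact_mod_cast hh
  have rq : (0 : ℝ) < q := by exact_mod_cast hq0
  have rhq : (0 : ℝ) < h * q := mul_pos rh rq
  have rL1 : (F : ℝ) + L + 2 * S ≤ h * q + M * J := by exact_mod_cast hL1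
  have rα : (6 : ℝ) * h * q ≤ 25 * S := by exact_mod_cast hα
  have rM : (12 : ℝ) * h < 25 * M := by exact_mod_cast hM
  have rMh : (M : ℝ) ≤ h := by exact_mod_cast hMh
  have rJ : (q : ℝ) + 1 ≤ 2 * J := by exact_mod_cast hJ
  have rJq : (J : ℝ) ≤ q := by exact_mod_cast hJq
  -- normalised variables
  have n0 : (F : ℝ) / (h * q) + (L - M * J) / (h * q) ≤ 1 - 2 * (S / (h * q)) := by
    rw [← add_div, div_le_iff₀ rhq]
    have : (1 - 2 * ((S : ℝ) / (h * q))) * (h * q) = h * q - 2 * S := by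
      field_simp
    rw [this]; linarith
  have nx : (6 : ℝ) / 25 ≤ S / (h * q) := by
    rw [le_div_iff₀ rhq]; linarith
  have nμ : (12 : ℝ) / 25 < M / h := by
    rw [lt_div_iff₀ rh]; linarith
  have nμ1 : (M : ℝ) / h ≤ 1 := by
    rw [div_le_iff₀ rh]; linarith
  have nj0 : (1 : ℝ) / 2 ≤ J / q := by
    rw [le_div_iff₀ rq]; linarith
  have nj1 : (J : ℝ) / q ≤ 1 := by
    rw [div_le_iff₀ rq]; linarith
  have nsmall : (J : ℝ) / q ≤ 3 / 5 → 10 * ((S : ℝ) / (h * q)) + 4 * (M / h)
      - 10 * (M / h) * (J / q) ≤ 10 * ((L - M * J) / (h * q)) := by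
    intro hj
    rw [div_le_iff₀ rq] at hj
    have h1 : 2 * 5 * J ≤ (5 + 1) * q := by
      have : (2 : ℝ) * 5 * J ≤ (5 + 1) * q := by linarith
      exact_mod_cast this
    have h2 := hL2 h1
    have h3 : (2 : ℝ) * 5 * S + M * 5 * q ≤ 2 * 5 * L + M * q := by exact_mod_cast h2
    have h4 : 10 * ((S : ℝ) / (h * q)) + 4 * (M / h) - 10 * (M / h) * (J / q)
        = (10 * S + 4 * M * q - 10 * M * J) / (h * q) := by
      field_simp
    rw [h4, ← mul_div_assoc]
    apply div_le_div_of_nonneg_right _ rhq.le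
    linarith
  have nlarge : (3 : ℝ) / 5 ≤ J / q → (1 - (J : ℝ) / q) * (5 * (S / (h * q)) - M / h) ≤
      (5 * (J / q) - 1) * ((L - M * J) / (h * q)) := by
    intro hj
    rw [le_div_iff₀ rq] at hj
    have h1 : (5 + 1) * q ≤ 2 * 5 * J := by
      have : ((5 : ℝ) + 1) * q ≤ 2 * 5 * J := by linarith
      exact_mod_cast this
    have h2 := hL3 h1
    have h4 : (1 - (J : ℝ) / q) * (5 * (S / (h * q)) - M / h)
        = ((q - J) * (5 * S - q * M)) / (q * (h * q)) := by
      field_simp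
    have h5 : (5 * ((J : ℝ) / q) - 1) * ((L - M * J) / (h * q))
        = ((5 * J - q) * (L - M * J)) / (q * (h * q)) := by
      field_simp
    rw [h4, h5]
    apply div_le_div_of_nonneg_right _ (mul_pos rq rhq).le
    exact_mod_cast h2
  rcases le_or_gt (5 * M) (3 * h) with hc | hc
  · -- small maximum
    have h1 := first_small i0 hmax hc (fun y hy => pairA2 H2 hM hy)
    have h2 : (2 : ℝ) * h * J + 5 * S ≤ 5 * F := by exact_mod_cast h1
    have h3 : 2 * ((J : ℝ) / q) + 5 * (S / (h * q)) ≤ 5 * (F / (h * q)) := by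
      have h4 : 2 * ((J : ℝ) / q) + 5 * (S / (h * q)) = (2 * h * J + 5 * S) / (h * q) := by
        field_simp
      rw [h4, ← mul_div_assoc]
      exact div_le_div_of_nonneg_right h2 rhq.le
    have nμ2 : (M : ℝ) / h ≤ 3 / 5 := by
      rw [div_le_iff₀ rh]
      have : (5 : ℝ) * M ≤ 3 * h := by exact_mod_cast hc
      linarith
    rcases le_total ((J : ℝ) / q) (3 / 5) with hj | hj
    · exact numA1 _ _ _ _ _ n0 h3 (nsmall hj) hj nμ nμ2 nx
    · exact numA2 _ _ _ _ _ n0 h3 (nlarge hj) hj nj1 nμ2 nx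
  · have h1 := first_large i0 hmax hMh (by omega) (fun y hy => pair_le H2 (by omega) hy)
      (fun y hy => pairA3 H2 hc hy)
    have h3 : (J : ℝ) / q ≤ F / (h * q) + 2 * (1 - M / h) * (M / h * (J / q) - S / (h * q)) := by
      have h4 : (F : ℝ) / (h * q) + 2 * (1 - M / h) * (M / h * (J / q) - S / (h * q))
          = (h * F + 2 * (h - M) * (M * J - S)) / (h ^ 2 * q) := by
        field_simp
      have h5 : (J : ℝ) / q = (h ^ 2 * J) / (h ^ 2 * q) := by
        field_simp
      rw [h4, h5]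
      apply div_le_div_of_nonneg_right _ (by positivity)
      exact_mod_cast h1
    have nμ2 : (3 : ℝ) / 5 < M / h := by
      rw [lt_div_iff₀ rh]
      have : (3 : ℝ) * h < 5 * M := by exact_mod_cast hc
      linarith
    rcases le_total ((J : ℝ) / q) (3 / 5) with hj | hj
    · exact numA3 _ _ _ _ _ n0 h3 (nsmall hj) nj0 hj nμ2 nμ1 nx
    · exact numA4 _ _ _ _ _ n0 h3 (nlarge hj) hj nj1 nμ2 nμ1 nx

theorem step2B {a d : Q → ℕ} {h : ℕ} (hdiv : ∀ r, r ∣ Fintype.card Q → r = 1 ∨ 13 ≤ r)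
    (H1 : ∀ k, a k + a (-k) + d k ≤ h) (H2 : PairCond PB a d h) (i0 : Q)
    (hmax : ∀ x, a x ≤ a i0) (hM : 6 * h < 13 * a i0)
    (hJ : Fintype.card Q + 1 ≤ 2 * (lev a 0).card)
    (hα : 3 * h * Fintype.card Q < 13 * ∑ x, a x) : False := by
  obtain ⟨L, hL1, hL2, hL3⟩ := step2_core (ρ := 13) (by norm_num) hdiv H1 H2 i0 hmax
    (by omega) hJ
  have hMh : a i0 ≤ h := by have := H1 i0; omega
  have hJq : (lev a 0).card ≤ Fintype.card Q := Finset.card_le_univ _
  set q := Fintype.card Q with hq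
  set J := (lev a 0).card with hJdef
  set M := a i0 with hMdef
  set S := ∑ x, a x with hS
  set F := ∑ y ∈ lev a 0, d (i0 - y) with hF
  have hh : 0 < h := by omega
  have hq0 : 0 < q := by omega
  have rh : (0 : ℝ) < h := by exact_mod_cast hh
  have rq : (0 : ℝ) < q := by exact_mod_cast hq0
  have rhq : (0 : ℝ) < h * q := mul_pos rh rq
  have rL1 : (F : ℝ) + L + 2 * S ≤ h * q + M * J := by exact_mod_cast hL1
  have rα : (3 : ℝ) * h * q < 13 * S := by exact_mod_cast hα
  have rM : (6 : ℝ) * h < 13 * M := by exact_mod_cast hM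
  have rMh : (M : ℝ) ≤ h := by exact_mod_cast hMh
  have rJ : (q : ℝ) + 1 ≤ 2 * J := by exact_mod_cast hJ
  have rJq : (J : ℝ) ≤ q := by exact_mod_cast hJq
  -- normalised variables
  have n0 : (F : ℝ) / (h * q) + (L - M * J) / (h * q) ≤ 1 - 2 * (S / (h * q)) := by
    rw [← add_div, div_le_iff₀ rhq]
    have : (1 - 2 * ((S : ℝ) / (h * q))) * (h * q) = h * q - 2 * S := by
      field_simp
    rw [this]; linarith
  have nx : (3 : ℝ) / 13 < S / (h * q) := by
    rw [lt_div_iff₀ rhq]; linarith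
  have nμ : (6 : ℝ) / 13 < M / h := by
    rw [lt_div_iff₀ rh]; linarith
  have nμ1 : (M : ℝ) / h ≤ 1 := by
    rw [div_le_iff₀ rh]; linarith
  have nj0 : (1 : ℝ) / 2 ≤ J / q := by
    rw [le_div_iff₀ rq]; linarith
  have nj1 : (J : ℝ) / q ≤ 1 := by
    rw [div_le_iff₀ rq]; linarith
  have nsmall : (J : ℝ) / q ≤ 7 / 13 → 26 * ((S : ℝ) / (h * q)) + 12 * (M / h)
      - 26 * (M / h) * (J / q) ≤ 26 * ((L - M * J) / (h * q)) := by
    intro hj
    rw [div_le_iff₀ rq] at hj
    have h1 : 2 * 13 * J ≤ (13 + 1) * q := by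
      have : (2 : ℝ) * 13 * J ≤ (13 + 1) * q := by linarith
      exact_mod_cast this
    have h2 := hL2 h1
    have h3 : (2 : ℝ) * 13 * S + M * 13 * q ≤ 2 * 13 * L + M * q := by exact_mod_cast h2
    have h4 : 26 * ((S : ℝ) / (h * q)) + 12 * (M / h) - 26 * (M / h) * (J / q)
        = (26 * S + 12 * M * q - 26 * M * J) / (h * q) := by
      field_simp
    rw [h4, ← mul_div_assoc]
    apply div_le_div_of_nonneg_right _ rhq.le
    linarith
  have nlarge : (7 : ℝ) / 13 ≤ J / q → (1 - (J : ℝ) / q) * (13 * (S / (h * q)) - M / h) ≤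
      (13 * (J / q) - 1) * ((L - M * J) / (h * q)) := by
    intro hj
    rw [le_div_iff₀ rq] at hj
    have h1 : (13 + 1) * q ≤ 2 * 13 * J := by
      have : ((13 : ℝ) + 1) * q ≤ 2 * 13 * J := by linarith
      exact_mod_cast this
    have h2 := hL3 h1
    have h4 : (1 - (J : ℝ) / q) * (13 * (S / (h * q)) - M / h)
        = ((q - J) * (13 * S - q * M)) / (q * (h * q)) := by
      field_simp
    have h5 : (13 * ((J : ℝ) / q) - 1) * ((L - M * J) / (h * q))
        = ((13 * J - q) * (L - M * J)) / (q * (h * q)) := by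
      field_simp
    rw [h4, h5]
    apply div_le_div_of_nonneg_right _ (mul_pos rq rhq).le
    exact_mod_cast h2
  rcases le_or_gt (5 * M) (3 * h) with hc | hc
  · -- small maximum
    have h1 := first_small i0 hmax hc (fun y hy => pairB2 H2 hM hy)
    have h2 : (2 : ℝ) * h * J + 5 * S ≤ 5 * F := by exact_mod_cast h1
    have h3 : 2 * ((J : ℝ) / q) + 5 * (S / (h * q)) ≤ 5 * (F / (h * q)) := by
      have h4 : 2 * ((J : ℝ) / q) + 5 * (S / (h * q)) = (2 * h * J + 5 * S) / (h * q) := by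
        field_simp
      rw [h4, ← mul_div_assoc]
      exact div_le_div_of_nonneg_right h2 rhq.le
    have nμ2 : (M : ℝ) / h ≤ 3 / 5 := by
      rw [div_le_iff₀ rh]
      have : (5 : ℝ) * M ≤ 3 * h := by exact_mod_cast hc
      linarith
    rcases le_total ((J : ℝ) / q) (7 / 13) with hj | hj
    · exact numB1 _ _ _ _ _ n0 h3 (nsmall hj) hj nμ nμ2 nx
    · exact numB2 _ _ _ _ _ n0 h3 (nlarge hj) hj nj1 nμ2 nx
  · have h1 := first_large i0 hmax hMh (by omega) (fun y hy => pair_le H2 (by omega) hy)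
      (fun y hy => pairB3 H2 hc hy)
    have h3 : (J : ℝ) / q ≤ F / (h * q) + 2 * (1 - M / h) * (M / h * (J / q) - S / (h * q)) := by
      have h4 : (F : ℝ) / (h * q) + 2 * (1 - M / h) * (M / h * (J / q) - S / (h * q))
          = (h * F + 2 * (h - M) * (M * J - S)) / (h ^ 2 * q) := by
        field_simp
      have h5 : (J : ℝ) / q = (h ^ 2 * J) / (h ^ 2 * q) := by
        field_simp
      rw [h4, h5]
      apply div_le_div_of_nonneg_right _ (by positivity)
      exact_mod_cast h1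
    have nμ2 : (3 : ℝ) / 5 < M / h := by
      rw [lt_div_iff₀ rh]
      have : (3 : ℝ) * h < 5 * M := by exact_mod_cast hc
      linarith
    rcases le_total ((J : ℝ) / q) (7 / 13) with hj | hj
    · exact numB3 _ _ _ _ _ n0 h3 (nsmall hj) nj0 hj nμ2 nμ1 nx
    · exact numB4 _ _ _ _ _ n0 h3 (nlarge hj) hj nj1 nμ2 nμ1 nx

end

end Pool.Agent.Helper549
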