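import Mathlib
import Pool.Agent.Helper549.SFStep
import Pool.Agent.Helper549.SFLower

set_option autoImplicit false
set_option linter.unusedSectionVars false
set_option linter.unusedVariables false

open scoped Pointwise
open Finset

namespace Pool.Agent.Helper549

open Kneser

section

variable {G : Type*} [AddCommGroup G] [Fintype G] [DecidableEq G]
variable {Q : Type*} [AddCommGroup Q] [Fintype Q] [DecidableEq Q]

/-- Number of elements of `A` in the fibre over `i`. -/
def fcard (f : G →+ Q) (A : Finset G) (i : Q) : ℕ := (A.filter (fun x => f x = i)).card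

/-- Order of the kernel. -/
def kcard (f : G →+ Q) : ℕ := (univ.filter (fun x : G => f x = 0)).card

theorem fiber_card_eq (f : G →+ Q) (hf : Function.Surjective f) (i : Q) :
    (univ.filter (fun x : G => f x = i)).card = kcard f := by
  have := fiber_card f hf {i}
  rw [card_singleton, one_mul] at this
  simpa [kcard] using this

theorem kcard_mul (f : G →+ Q) (hf : Function.Surjective f) :
    kcard f * Fintype.card Q = Fintype.card G := by
  have h1 := fiber_card f hf (univ : Finset Q)
  have h2 : (univ.filter (fun x => f x ∈ (univ : Finset Q))) = (univ : Finset G) := by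
    ext x; simp
  rw [h2, Finset.card_univ, Finset.card_univ] at h1
  rw [h1, kcard, mul_comm]

theorem sum_fcard (f : G →+ Q) (A : Finset G) : ∑ i, fcard f A i = A.card :=
  (Finset.card_eq_sum_card_fiberwise (f := fun x : G => f x) (s := A) (t := univ)
    (fun x _ => Finset.mem_coe.mpr (mem_univ _))).symm

theorem fiber_H1 (f : G →+ Q) (hf : Function.Surjective f) (A : Finset G) (hA : SF A) (k : Q) :
    fcard f A k + fcard f A (-k) + fcard f (A + -A) k ≤ kcard f := by
  set X := A.filter (fun x => f x = k) with hX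
  set Y := A.filter (fun x => f x = -k) with hY
  set D := (A + -A).filter (fun x => f x = k) with hD
  have d1 : Disjoint X (-Y) := by
    rw [Finset.disjoint_left]
    intro x hx hx'
    rw [Finset.mem_neg', hY, Finset.mem_filter] at hx'
    exact hA.neg_notMem (Finset.mem_filter.mp hx).1 hx'.1
  have hDel : ∀ z ∈ D, z ∉ A ∧ -z ∉ A := by
    intro z hz
    rw [hD, Finset.mem_filter, Finset.mem_add] at hz
    obtain ⟨⟨a, ha, b, hb, rfl⟩, _⟩ := hz
    rw [Finset.mem_neg'] at hb
    have h1 := hA.sub_notMem ha hb
    have h2 := hA.sub_notMem hb ha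
    rw [sub_neg_eq_add] at h1
    refine ⟨h1, ?_⟩
    have : -(a + b) = -b - a := by abel
    rw [this]; exact h2
  have d2 : Disjoint (X ∪ -Y) D := by
    rw [Finset.disjoint_left]
    intro x hx hxD
    rw [Finset.mem_union] at hx
    rcases hx with hx | hx
    · exact (hDel x hxD).1 (Finset.mem_filter.mp hx).1
    · rw [Finset.mem_neg', hY, Finset.mem_filter] at hx
      exact (hDel x hxD).2 hx.1
  have hsub : (X ∪ -Y) ∪ D ⊆ univ.filter (fun x : G => f x = k) := by
    intro x hx
    rw [Finset.mem_filter]
    refine ⟨mem_univ _, ?_⟩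
    rw [Finset.mem_union, Finset.mem_union] at hx
    rcases hx with (hx | hx) | hx
    · exact (Finset.mem_filter.mp hx).2
    · rw [Finset.mem_neg', hY, Finset.mem_filter, map_neg] at hx
      exact neg_injective hx.2
    · exact (Finset.mem_filter.mp hx).2
  have := Finset.card_le_card hsub
  rw [Finset.card_union_of_disjoint d2, Finset.card_union_of_disjoint d1, card_neg',
    fiber_card_eq f hf] at this
  exact this

theorem fiber_pair {P : ℕ → Prop} (hP : ∀ m, m ∣ Fintype.card G → P m) (f : G →+ Q)
    (hf : Function.Surjective f) (A : Finset G) :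
    PairCond P (fcard f A) (fcard f (A + -A)) (kcard f) := by
  intro x y hx hy
  set X := A.filter (fun z => f z = x) with hX
  set Y := A.filter (fun z => f z = y) with hY
  have hXne : X.Nonempty := Finset.card_pos.mp hx
  have hYne : Y.Nonempty := Finset.card_pos.mp hy
  obtain ⟨T, hper, u, v, r, hr, hu, hv, huv, hu1, hv1⟩ := kneser_sub X Y hXne hYne
  have hfD : ∀ z ∈ X + -Y, f z = x - y := by
    intro z hz
    rw [Finset.mem_add] at hz
    obtain ⟨a, ha, b, hb, rfl⟩ := hz
    rw [Finset.mem_neg', hY, Finset.mem_filter, map_neg] at hb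
    rw [hX, Finset.mem_filter] at ha
    rw [map_add, ha.2]
    have : f b = -y := by rw [← hb.2, neg_neg]
    rw [this, sub_eq_add_neg]
  have hT0 : ∀ g ∈ T, f g = 0 := by
    intro g hg
    obtain ⟨z, hz⟩ := hXne.add hYne.neg
    have h1 := hfD z hz
    have h2 := hfD _ (hper z hz g hg)
    rw [map_add, h1] at h2
    exact add_eq_left.mp h2
  have hTstab : T ≤ stab (univ.filter (fun z : G => f z = 0)) := by
    intro g hg
    apply mem_stab_of_forall
    intro z hz
    rw [Finset.mem_filter] at hz ⊢
    exact ⟨mem_univ _, by rw [map_add, hz.2, hT0 g hg, add_zero]⟩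
  obtain ⟨m, hm⟩ := card_dvd T _ hTstab
  have hmk : m * (fs T).card = kcard f := by rw [mul_comm]; exact hm.symm
  refine ⟨(fs T).card, m, u, v, fs_card_pos T, hmk, hP m ?_, hu, hv, ?_, hu1, hv1⟩
  · exact (Dvd.intro _ hmk).trans (Dvd.intro _ (kcard_mul f hf))
  · have hsub : X + -Y ⊆ (A + -A).filter (fun z => f z = x - y) := by
      intro z hz
      rw [Finset.mem_filter]
      refine ⟨?_, hfD z hz⟩
      rw [Finset.mem_add] at hz ⊢
      obtain ⟨a, ha, b, hb, rfl⟩ := hz
      rw [Finset.mem_neg', hY, Finset.mem_filter] at hb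
      exact ⟨a, (Finset.mem_filter.mp ha).1, b, Finset.mem_neg'.mpr hb.1, rfl⟩
    have := Finset.card_le_card hsub
    exact le_trans huv (Nat.add_le_add_right this _)

theorem fiber_step0 (hdiv : ∀ m, m ∣ Fintype.card G → m % 4 = 1) (f : G →+ Q)
    (hf : Function.Surjective f) (A : Finset G) (hA : SF A)
    (hJ : 2 * (lev (fcard f A) 0).card + 1 ≤ Fintype.card Q) :
    4 * A.card + kcard f ≤ Fintype.card G := by
  have hQG : Fintype.card Q ∣ Fintype.card G := Dvd.intro_left _ (kcard_mul f hf)
  have H1 := fiber_H1 f hf A hA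
  have H2 := fiber_pair (P := fun _ => True) (fun _ _ => trivial) f hf A
  have := step0 (fun r hr => hdiv r (hr.trans hQG)) (fcard f A) (kcard f)
    (fun k => by have := H1 k; omega) ?_ hJ
  · rw [sum_fcard, kcard_mul f hf] at this
    exact this
  · intro x y hxy
    have hx : 0 < fcard f A x := by
      have h1 := H1 y; omega
    have hy : 0 < fcard f A y := by
      have h1 := H1 x; omega
    have h3 := pair_full H2 hx hy hxy
    have h4 := H1 (x - y)
    omega

theorem fiber_main_A (hdiv : ∀ m, m ∣ Fintype.card G → m % 4 = 1 ∧ PA m) (f : G →+ Q)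
    (hf : Function.Surjective f) (A : Finset G) (hA : SF A) (k : Q)
    (hk : 3 * kcard f < 5 * (fcard f A k + fcard f A (-k)))
    (hα : 6 * Fintype.card G < 25 * A.card) :
    4 * A.card + kcard f ≤ Fintype.card G := by
  have hQG : Fintype.card Q ∣ Fintype.card G := Dvd.intro_left _ (kcard_mul f hf)
  have H1 := fiber_H1 f hf A hA
  have H2 := fiber_pair (P := PA) (fun m hm => (hdiv m hm).2) f hf A
  have hα' : 6 * kcard f * Fintype.card Q < 25 * ∑ x, fcard f A x := by
    rw [sum_fcard, mul_assoc, kcard_mul f hf]; exact hα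
  have hQodd := (hdiv _ hQG).1
  rcases Nat.lt_or_ge (2 * (lev (fcard f A) 0).card) (Fintype.card Q) with hJ | hJ
  · exact fiber_step0 (fun m hm => (hdiv m hm).1) f hf A hA (by omega)
  · exfalso
    by_cases hM : ∀ x, 25 * fcard f A x ≤ 12 * kcard f
    · have := step1A H1 H2 k hk hM
      omega
    · push Not at hM
      obtain ⟨x, hx⟩ := hM
      obtain ⟨i0, _, hi0⟩ := Finset.exists_max_image univ (fcard f A) ⟨x, mem_univ x⟩
      have hmax : ∀ y, fcard f A y ≤ fcard f A i0 := fun y => hi0 y (mem_univ y)
      apply step2A (h := kcard f) ?_ H1 H2 i0 hmax ?_ ?_ hα'.le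
      · intro r hr
        rcases (hdiv r (hr.trans hQG)).2 with h | h | h
        · exact Or.inl h
        · right; omega
        · right; omega
      · have := hmax x; omega
      · omega

theorem fiber_main_B (hdiv : ∀ m, m ∣ Fintype.card G → m % 4 = 1 ∧ PB m) (f : G →+ Q)
    (hf : Function.Surjective f) (A : Finset G) (hA : SF A) (k : Q)
    (hk : 3 * kcard f < 5 * (fcard f A k + fcard f A (-k)))
    (hα : 3 * Fintype.card G < 13 * A.card) :
    4 * A.card + kcard f ≤ Fintype.card G := by
  have hQG : Fintype.card Q ∣ Fintype.card G := Dvd.intro_left _ (kcard_mul f hf)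
  have H1 := fiber_H1 f hf A hA
  have H2 := fiber_pair (P := PB) (fun m hm => (hdiv m hm).2) f hf A
  have hα' : 3 * kcard f * Fintype.card Q < 13 * ∑ x, fcard f A x := by
    rw [sum_fcard, mul_assoc, kcard_mul f hf]; exact hα
  have hQodd := (hdiv _ hQG).1
  rcases Nat.lt_or_ge (2 * (lev (fcard f A) 0).card) (Fintype.card Q) with hJ | hJ
  · exact fiber_step0 (fun m hm => (hdiv m hm).1) f hf A hA (by omega)
  · exfalso
    by_cases hM : ∀ x, 13 * fcard f A x ≤ 6 * kcard f
    · have := step1B H1 H2 k hk hM
      omega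
    · push Not at hM
      obtain ⟨x, hx⟩ := hM
      obtain ⟨i0, _, hi0⟩ := Finset.exists_max_image univ (fcard f A) ⟨x, mem_univ x⟩
      have hmax : ∀ y, fcard f A y ≤ fcard f A i0 := fun y => hi0 y (mem_univ y)
      apply step2B (h := kcard f) ?_ H1 H2 i0 hmax ?_ ?_ hα'
      · intro r hr
        rcases (hdiv r (hr.trans hQG)).2 with h | h | h
        · exact Or.inl h
        · right; omega
        · right; omega
      · have := hmax x; omega
      · omega

end

end Pool.Agent.Helper549
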