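import Mathlib
import Pool.Agent.Helper549.SFFiber

set_option autoImplicit false
set_option linter.unusedSectionVars false
set_option linter.unusedVariables false

open scoped Pointwise ComplexConjugate
open Finset

namespace Pool.Agent.Helper549

open Kneser

section

variable {G : Type*} [AddCommGroup G] [Fintype G] [DecidableEq G]

theorem card_symm (A : Finset G) (hA : SF A) : (A ∪ -A).card = 2 * A.card := by
  rw [Finset.card_union_of_disjoint, card_neg']
  · ring
  · rw [Finset.disjoint_left]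
    intro x hx hx'
    exact hA.neg_notMem hx (Finset.mem_neg'.mp hx')

theorem fourier_one (A : Finset G) :
    ∑ ψ : AddChar G ℂ, Complex.normSq (∑ a ∈ A, ψ a) = (Fintype.card G : ℝ) * A.card := by
  have h1 : (∑ ψ : AddChar G ℂ, (∑ a ∈ A, ψ a) * conj (∑ a ∈ A, ψ a))
      = (Fintype.card G : ℂ) * A.card := by
    have h2 : ∀ ψ : AddChar G ℂ, (∑ a ∈ A, ψ a) * conj (∑ a ∈ A, ψ a)
        = ∑ a ∈ A, ∑ b ∈ A, ψ (a - b) := by
      intro ψ
      rw [map_sum, Finset.sum_mul_sum]
      apply Finset.sum_congr rfl; intro a _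
      apply Finset.sum_congr rfl; intro b _
      rw [← AddChar.map_neg_eq_conj, ← AddChar.map_add_eq_mul, sub_eq_add_neg]
    rw [Finset.sum_congr rfl (fun ψ _ => h2 ψ), Finset.sum_comm]
    have h3 : ∀ a ∈ A, ∑ ψ : AddChar G ℂ, ∑ b ∈ A, ψ (a - b) = (Fintype.card G : ℂ) := by
      intro a ha
      rw [Finset.sum_comm]
      have h4 : ∀ b ∈ A, ∑ ψ : AddChar G ℂ, ψ (a - b) = if a = b then (Fintype.card G : ℂ) else 0 := by
        intro b _
        rw [AddChar.sum_apply_eq_ite]
        simp only [sub_eq_zero]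
      rw [Finset.sum_congr rfl h4, Finset.sum_ite_eq, if_pos ha]
    rw [Finset.sum_congr rfl h3, Finset.sum_const, nsmul_eq_mul, mul_comm]
  have h5 : ((∑ ψ : AddChar G ℂ, Complex.normSq (∑ a ∈ A, ψ a) : ℝ) : ℂ)
      = (((Fintype.card G : ℝ) * A.card : ℝ) : ℂ) := by
    push_cast
    rw [← h1]
    apply Finset.sum_congr rfl
    intro ψ _
    rw [Complex.mul_conj]
  exact_mod_cast h5

theorem fourier_two (A : Finset G) (hA : SF A) :
    ∑ ψ : AddChar G ℂ, Complex.normSq (∑ a ∈ A, ψ a) * (∑ b ∈ A ∪ -A, ψ b).re = 0 := by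
  have h1 : (∑ ψ : AddChar G ℂ, ((∑ a ∈ A, ψ a) * conj (∑ a ∈ A, ψ a)) * ∑ b ∈ A ∪ -A, ψ b)
      = 0 := by
    have h2 : ∀ ψ : AddChar G ℂ, ((∑ a ∈ A, ψ a) * conj (∑ a ∈ A, ψ a)) * ∑ b ∈ A ∪ -A, ψ b
        = ∑ a ∈ A, ∑ b ∈ A, ∑ c ∈ A ∪ -A, ψ (a - b + c) := by
      intro ψ
      rw [map_sum, Finset.sum_mul_sum, Finset.sum_mul]
      apply Finset.sum_congr rfl; intro a _
      rw [Finset.sum_mul]
      apply Finset.sum_congr rfl; intro b _
      rw [Finset.mul_sum]
      apply Finset.sum_congr rfl; intro c _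
      rw [← AddChar.map_neg_eq_conj, ← AddChar.map_add_eq_mul, ← AddChar.map_add_eq_mul,
        sub_eq_add_neg]
    rw [Finset.sum_congr rfl (fun ψ _ => h2 ψ), Finset.sum_comm]
    apply Finset.sum_eq_zero
    intro a ha
    rw [Finset.sum_comm]
    apply Finset.sum_eq_zero
    intro b hb
    rw [Finset.sum_comm]
    apply Finset.sum_eq_zero
    intro c hc
    rw [AddChar.sum_apply_eq_ite, if_neg]
    intro h0
    have h3 : a - b = -c := eq_neg_of_add_eq_zero_left h0
    rw [Finset.mem_union, Finset.mem_neg'] at hc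
    rcases hc with hc | hc
    · apply hA.sub_notMem hb ha
      have : b - a = c := by rw [← neg_sub, h3, neg_neg]
      rw [this]; exact hc
    · apply hA.sub_notMem ha hb
      rw [h3]; exact hc
  have h5 : ∀ ψ : AddChar G ℂ, Complex.normSq (∑ a ∈ A, ψ a) * (∑ b ∈ A ∪ -A, ψ b).re
      = (((∑ a ∈ A, ψ a) * conj (∑ a ∈ A, ψ a)) * ∑ b ∈ A ∪ -A, ψ b).re := by
    intro ψ
    rw [Complex.mul_conj, Complex.re_ofReal_mul]
  rw [Finset.sum_congr rfl (fun ψ _ => h5 ψ), ← Complex.re_sum, h1, Complex.zero_re]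

theorem fourier_main (A : Finset G) (hA : SF A) (hne : A.Nonempty) :
    ∃ ψ : AddChar G ℂ, ψ ≠ 0 ∧
      (∑ b ∈ A ∪ -A, ψ b).re * ((Fintype.card G : ℝ) - A.card) ≤ -(2 * (A.card : ℝ) ^ 2) := by
  classical
  set n : ℝ := (Fintype.card G : ℝ) with hn
  set c : ℝ := (A.card : ℝ) with hc
  have hcpos : 0 < c := by rw [hc]; exact_mod_cast Finset.card_pos.mpr hne
  have hcn : c < n := by
    rw [hc, hn]
    have : A.card < Fintype.card G := by
      rw [← Finset.card_univ]
      apply Finset.card_lt_card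
      rw [Finset.ssubset_univ_iff]
      intro h
      apply hA.1
      rw [h]; exact mem_univ _
    exact_mod_cast this
  set w : AddChar G ℂ → ℝ := fun ψ => Complex.normSq (∑ a ∈ A, ψ a) with hw
  set T : AddChar G ℂ → ℝ := fun ψ => (∑ b ∈ A ∪ -A, ψ b).re with hT
  have h1 : ∑ ψ, w ψ = n * c := fourier_one A
  have h2 : ∑ ψ, w ψ * T ψ = 0 := fourier_two A hA
  have w0 : w 0 = c ^ 2 := by
    simp [hw, hc, Complex.normSq_natCast, sq]
  have T0 : T 0 = 2 * c := by
    have : (∑ b ∈ A ∪ -A, (0 : AddChar G ℂ) b) = ((A ∪ -A).card : ℂ) := by simp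
    simp only [hT]
    rw [this, card_symm A hA]
    simp [hc]
  have wnn : ∀ ψ, 0 ≤ w ψ := fun ψ => Complex.normSq_nonneg _
  set s : Finset (AddChar G ℂ) := univ.filter (fun ψ => ψ ≠ 0 ∧ w ψ ≠ 0) with hs
  have split : ∀ g : AddChar G ℂ → ℝ, ∑ ψ, w ψ * g ψ = w 0 * g 0 + ∑ ψ ∈ s, w ψ * g ψ := by
    intro g
    rw [← Finset.add_sum_erase univ _ (mem_univ (0 : AddChar G ℂ))]
    congr 1
    symm
    apply Finset.sum_subset
    · intro ψ hψ
      rw [hs, Finset.mem_filter] at hψ
      exact Finset.mem_erase.mpr ⟨hψ.2.1, mem_univ _⟩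
    · intro ψ hψ hψ'
      rw [Finset.mem_erase] at hψ
      have : w ψ = 0 := by
        by_contra hcon
        apply hψ'
        rw [hs, Finset.mem_filter]
        exact ⟨mem_univ _, hψ.1, hcon⟩
      rw [this, zero_mul]
  have e1 := split (fun _ => 1)
  simp only [mul_one] at e1
  rw [h1, w0] at e1
  have e2 := split T
  rw [h2, w0, T0] at e2
  have hsne : s.Nonempty := by
    by_contra hcon
    rw [Finset.not_nonempty_iff_eq_empty] at hcon
    rw [hcon, Finset.sum_empty, add_zero] at e1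
    nlinarith
  have hle : ∑ ψ ∈ s, w ψ * T ψ * (n - c) ≤ ∑ ψ ∈ s, w ψ * (-(2 * c ^ 2)) := by
    rw [← Finset.sum_mul, ← Finset.sum_mul]
    have a1 : ∑ ψ ∈ s, w ψ * T ψ = -(2 * c ^ 3) := by nlinarith
    have a2 : ∑ ψ ∈ s, w ψ = n * c - c ^ 2 := by linarith
    rw [a1, a2]
    nlinarith
  obtain ⟨ψ, hψs, hψ⟩ := Finset.exists_le_of_sum_le hsne hle
  rw [hs, Finset.mem_filter] at hψs
  refine ⟨ψ, hψs.2.1, ?_⟩
  have hwpos : 0 < w ψ := lt_of_le_of_ne (wnn ψ) (Ne.symm hψs.2.2)
  have : w ψ * (T ψ * (n - c)) ≤ w ψ * (-(2 * c ^ 2)) := by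
    rw [← mul_assoc]; exact hψ
  exact le_of_mul_le_mul_left this hwpos

theorem fcard_symm {Q : Type*} [AddCommGroup Q] [Fintype Q] [DecidableEq Q] (f : G →+ Q)
    (A : Finset G) (hA : SF A) (k : Q) :
    fcard f (A ∪ -A) k = fcard f A k + fcard f A (-k) := by
  unfold fcard
  rw [Finset.filter_union, Finset.card_union_of_disjoint]
  · congr 1
    apply Finset.card_nbij' (fun x => -x) (fun x => -x)
    · intro x hx
      have hx := Finset.mem_filter.mp (Finset.mem_coe.mp hx)
      apply Finset.mem_coe.mpr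
      rw [Finset.mem_filter, map_neg, hx.2]
      exact ⟨Finset.mem_neg'.mp hx.1, rfl⟩
    · intro x hx
      have hx := Finset.mem_filter.mp (Finset.mem_coe.mp hx)
      apply Finset.mem_coe.mpr
      rw [Finset.mem_filter, map_neg, hx.2, neg_neg, Finset.mem_neg', neg_neg]
      exact ⟨hx.1, rfl⟩
    · intro x _; exact neg_neg x
    · intro x _; exact neg_neg x
  · rw [Finset.disjoint_left]
    intro x hx hx'
    rw [Finset.mem_filter] at hx hx'
    exact hA.neg_notMem hx.1 (Finset.mem_neg'.mp hx'.1)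

theorem char_card_le {Q : Type*} [AddCommGroup Q] [Fintype Q] [DecidableEq Q] (f : G →+ Q)
    (hf : Function.Surjective f) (ψ : AddChar G ℂ) (hfψ : ∀ x y : G, f x = f y ↔ ψ x = ψ y) :
    Fintype.card Q ≤ AddMonoid.exponent G := by
  classical
  obtain ⟨g, hg⟩ := hf.hasRightInverse
  let F : Q → ℂ := fun q => ψ (g q)
  have hF : Function.Injective F := by
    intro q q' h
    have h1 : f (g q) = f (g q') := (hfψ _ _).mpr h
    rw [hg q, hg q'] at h1
    exact h1
  have hpow : ∀ x : G, ψ x ^ AddMonoid.exponent G = 1 := by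
    intro x
    rw [← AddChar.map_nsmul_eq_pow, AddMonoid.exponent_nsmul_eq_zero, AddChar.map_zero_eq_one]
  have hpos : 0 < AddMonoid.exponent G := Nat.pos_of_ne_zero AddMonoid.exponent_ne_zero_of_finite
  have hsub : (univ : Finset Q).image F ⊆
      (Polynomial.nthRoots (AddMonoid.exponent G) (1 : ℂ)).toFinset := by
    intro z hz
    rw [Finset.mem_image] at hz
    obtain ⟨q, _, rfl⟩ := hz
    rw [Multiset.mem_toFinset, Polynomial.mem_nthRoots hpos]
    exact hpow _
  have h1 := Finset.card_le_card hsub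
  rw [Finset.card_image_of_injective _ hF, Finset.card_univ] at h1
  have h2 := Multiset.toFinset_card_le (Polynomial.nthRoots (AddMonoid.exponent G) (1 : ℂ))
  have h3 := Polynomial.card_nthRoots (AddMonoid.exponent G) (1 : ℂ)
  omega

/-- some fibre of `A ∪ -A` is dense. -/
theorem char_dense {Q : Type*} [AddCommGroup Q] [Fintype Q] [DecidableEq Q] (f : G →+ Q)
    (hf : Function.Surjective f) (ψ : AddChar G ℂ) (hψ0 : ψ ≠ 0)
    (hfψ : ∀ x y : G, f x = f y ↔ ψ x = ψ y) (A : Finset G) (hA : SF A)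
    (hψ : (∑ b ∈ A ∪ -A, ψ b).re * ((Fintype.card G : ℝ) - A.card) ≤ -(2 * (A.card : ℝ) ^ 2))
    (hAn : A.card < Fintype.card G) :
    ∃ k : Q, 2 * A.card * kcard f + (fcard f A k + fcard f A (-k)) * A.card
        ≤ (fcard f A k + fcard f A (-k)) * Fintype.card G := by
  obtain ⟨g, hg⟩ := hf.hasRightInverse
  set B := A ∪ -A with hB
  set w : Q → ℂ := fun q => ψ (g q) with hw
  have hψw : ∀ x : G, ψ x = w (f x) := by
    intro x
    apply (hfψ _ _).mp
    rw [hg]
  have hT : ∑ b ∈ B, ψ b = ∑ k : Q, (fcard f B k : ℂ) * w k := by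
    rw [← Finset.sum_fiberwise_of_maps_to (s := B) (t := (univ : Finset Q)) (g := fun x => f x)
      (fun x _ => mem_univ _)]
    apply Finset.sum_congr rfl
    intro k _
    rw [Finset.sum_congr rfl (g := fun _ => w k), Finset.sum_const, nsmul_eq_mul, fcard]
    intro x hx
    rw [Finset.mem_filter] at hx
    rw [hψw, hx.2]
  have hsum0 : ∑ k : Q, w k = 0 := by
    have h1 : ∑ x : G, ψ x = 0 := AddChar.sum_eq_zero_iff_ne_zero.mpr hψ0
    rw [← Finset.sum_fiberwise_of_maps_to (s := (univ : Finset G)) (t := (univ : Finset Q))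
      (g := fun x => f x) (fun x _ => mem_univ _)] at h1
    have h2 : ∀ k ∈ (univ : Finset Q), ∑ x ∈ univ.filter (fun x => f x = k), ψ x
        = (kcard f : ℂ) * w k := by
      intro k _
      rw [Finset.sum_congr rfl (g := fun _ => w k), Finset.sum_const, nsmul_eq_mul,
        fiber_card_eq f hf]
      intro x hx
      rw [Finset.mem_filter] at hx
      rw [hψw, hx.2]
    rw [Finset.sum_congr rfl h2, ← Finset.mul_sum] at h1
    rcases mul_eq_zero.mp h1 with h3 | h3
    · exfalso
      have h4 : kcard f = 0 := by exact_mod_cast h3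
      have h5 := kcard_mul f hf
      rw [h4, zero_mul] at h5
      exact absurd h5.symm Fintype.card_ne_zero
    · exact h3
  obtain ⟨k, _, hk⟩ := Finset.exists_max_image (univ : Finset Q) (fcard f B) ⟨f 0, mem_univ _⟩
  refine ⟨k, ?_⟩
  rw [← fcard_symm f A hA k, ← hB]
  set β := fcard f B k with hβ
  -- lower bound on the real part
  have hre : -((β : ℝ) * Fintype.card Q - 2 * A.card) ≤ (∑ b ∈ B, ψ b).re := by
    have h1 : ∑ b ∈ B, ψ b = -∑ i : Q, ((β : ℂ) - fcard f B i) * w i := by
      rw [hT]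
      have : ∑ i : Q, ((β : ℂ) - fcard f B i) * w i = β * ∑ i : Q, w i
          - ∑ i : Q, (fcard f B i : ℂ) * w i := by
        rw [Finset.mul_sum, ← Finset.sum_sub_distrib]
        apply Finset.sum_congr rfl
        intro i _
        ring
      rw [this, hsum0]
      ring
    rw [h1, Complex.neg_re, neg_le_neg_iff, Complex.re_sum]
    have h2 : ∀ i ∈ (univ : Finset Q), (((β : ℂ) - fcard f B i) * w i).re
        ≤ (β : ℝ) - fcard f B i := by
      intro i _
      have e1 : ((β : ℂ) - fcard f B i) = (((β : ℝ) - fcard f B i : ℝ) : ℂ) := by push_cast; rfl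
      rw [e1, Complex.re_ofReal_mul]
      have e2 : (w i).re ≤ 1 := by
        have : ‖w i‖ = 1 := ψ.norm_apply _
        rw [← this]; exact Complex.re_le_norm _
      have e3 : (0 : ℝ) ≤ (β : ℝ) - fcard f B i := by
        have : (fcard f B i : ℝ) ≤ β := by exact_mod_cast hk i (mem_univ i)
        linarith
      nlinarith
    refine le_trans (Finset.sum_le_sum h2) ?_
    rw [Finset.sum_sub_distrib, Finset.sum_const, Finset.card_univ, nsmul_eq_mul]
    have h3 : ∑ i : Q, (fcard f B i : ℝ) = 2 * A.card := by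
      have := sum_fcard f B
      rw [card_symm A hA] at this
      exact_mod_cast this
    rw [h3]
    linarith
  have hn := kcard_mul f hf
  have hn' : (kcard f : ℝ) * Fintype.card Q = Fintype.card G := by exact_mod_cast hn
  have hAn' : (0 : ℝ) < (Fintype.card G : ℝ) - A.card := by
    have : (A.card : ℝ) < Fintype.card G := by exact_mod_cast hAn
    linarith
  have hQpos : (0 : ℝ) < Fintype.card Q := by
    have : 0 < Fintype.card Q := Fintype.card_pos
    exact_mod_cast this
  have h1 : -((β : ℝ) * Fintype.card Q - 2 * A.card) * ((Fintype.card G : ℝ) - A.card)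
      ≤ -(2 * (A.card : ℝ) ^ 2) :=
    le_trans (mul_le_mul_of_nonneg_right hre hAn'.le) hψ
  have h2 : 2 * (A.card : ℝ) * Fintype.card G ≤ β * Fintype.card Q * (Fintype.card G - A.card) := by
    nlinarith
  have h3 : (Fintype.card Q : ℝ) * (2 * A.card * kcard f + β * A.card)
      ≤ Fintype.card Q * (β * Fintype.card G) := by
    nlinarith
  have h4 := le_of_mul_le_mul_left h3 hQpos
  exact_mod_cast h4

end

universe u

theorem exists_dense_fiber {G : Type u} [AddCommGroup G] [Fintype G] [DecidableEq G]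
    (A : Finset G) (hA : SF A) (hne : A.Nonempty) :
    ∃ (Q : Type u) (_ : AddCommGroup Q) (_ : Fintype Q) (_ : DecidableEq Q) (f : G →+ Q),
      Function.Surjective f ∧ Fintype.card Q ≤ AddMonoid.exponent G ∧
      ∃ k : Q, 2 * A.card * kcard f + (fcard f A k + fcard f A (-k)) * A.card
        ≤ (fcard f A k + fcard f A (-k)) * Fintype.card G := by
  classical
  obtain ⟨ψ, hψ0, hψ⟩ := fourier_main A hA hne
  let H : AddSubgroup G := ψ.toAddMonoidHom.ker
  have hH : ∀ x y : G, (QuotientAddGroup.mk x : G ⧸ H) = QuotientAddGroup.mk y ↔ ψ x = ψ y := by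
    intro x y
    rw [QuotientAddGroup.eq, AddMonoidHom.mem_ker]
    rw [AddChar.toAddMonoidHom_apply]
    constructor
    · intro h
      have h1 : ψ (-x + y) = 1 := by
        have := congrArg Additive.toMul h
        simpa using this
      have h2 : ψ (x + (-x + y)) = ψ x * ψ (-x + y) := AddChar.map_add_eq_mul _ _ _
      rw [add_neg_cancel_left, h1, mul_one] at h2
      exact h2.symm
    · intro h
      have h1 : ψ (-x + y) = 1 := by
        rw [AddChar.map_add_eq_mul, ← h, ← AddChar.map_add_eq_mul, neg_add_cancel,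
          AddChar.map_zero_eq_one]
      rw [h1]; rfl
  letI : Fintype (G ⧸ H) := Fintype.ofFinite _
  have hf : Function.Surjective (QuotientAddGroup.mk' H) := QuotientAddGroup.mk'_surjective H
  have hAn : A.card < Fintype.card G := by
    rw [← Finset.card_univ]
    apply Finset.card_lt_card
    rw [Finset.ssubset_univ_iff]
    intro h
    apply hA.1
    rw [h]; exact mem_univ _
  exact ⟨G ⧸ H, inferInstance, inferInstance, inferInstance, QuotientAddGroup.mk' H, hf,
    char_card_le _ hf ψ hH, char_dense _ hf ψ hψ0 hH A hA hψ hAn⟩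

end Pool.Agent.Helper549
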