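import Mathlib
import Pool.Agent.Helper549.SF02

set_option autoImplicit false
set_option linter.unusedSectionVars false

open scoped Pointwise
open Finset

namespace Pool.Agent.Helper549

open Kneser

theorem num3 (h j u v M a b : ℕ) (hpos : 0 < h) (hodd : h % 2 = 1) 
    (ha : a ≤ h * u) (hb : b ≤ h * v) (haM : a ≤ M) (hbM : b ≤ M)
    (hM : 2 * M + h * (u + v) ≤ h * (4 * j + 1) + h) : 2 * (a + b) + 1 ≤ h * (4 * j + 1) := by
  rcases Nat.lt_or_ge (u + v) (2 * j + 1) with h1 | h1
  · have : h * (u + v) ≤ h * (2 * j) := Nat.mul_le_mul_left _ (by omega)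
    nlinarith
  · rcases Nat.lt_or_ge (u + v) (2 * j + 2) with h2 | h2
    · have huv : u + v = 2 * j + 1 := by omega
      rw [huv] at hM
      have hM' : 2 * M ≤ h * (2 * j + 1) := by nlinarith
      have hpar : (h * (4 * j + 1)) % 2 = 1 := by
        rw [Nat.mul_mod, hodd]; omega
      have hkey : 2 * (a + b) ≤ h * (4 * j + 1) := by
        rcases Nat.lt_or_ge j u with h3 | h3
        · have hv : v ≤ j := by omega
          have : h * v ≤ h * j := Nat.mul_le_mul_left _ hv
          nlinarith
        · have : h * u ≤ h * j := Nat.mul_le_mul_left _ h3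
          nlinarith
      omega
    · have : h * (2 * j + 2) ≤ h * (u + v) := Nat.mul_le_mul_left _ h2
      have hM' : 2 * M ≤ h * (2 * j) := by nlinarith
      nlinarith

section

variable {G : Type*} [AddCommGroup G] [Fintype G] [DecidableEq G]

theorem upper3 (m : ℕ) (hm : m % 2 = 1) (h2m : ∀ x : G, (2 * m) • x = 0)
    (hdiv : ∀ d, d ∣ Fintype.card G → d % 2 = 1 → d % 4 = 1) (A : Finset G) (hA : SF A) :
    4 * A.card + (univ.filter (fun x : G => x + x = 0)).card ≤ Fintype.card G := by
  classical
  set T := univ.filter (fun x : G => x + x = 0) with hT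
  have memT : ∀ x : G, x ∈ T ↔ x + x = 0 := by intro x; simp [hT]
  set F : G → Finset G := fun s => univ.filter (fun x => m • x = s) with hF
  have memF : ∀ s x : G, x ∈ F s ↔ m • x = s := by intro s x; simp [hF]
  -- image of π lies in T
  have piT : ∀ x : G, m • x ∈ T := by
    intro x
    rw [memT, ← two_nsmul, ← mul_nsmul']
    exact h2m x
  -- π fixes T
  obtain ⟨j0, hj0⟩ : ∃ j, m = 2 * j + 1 := ⟨m / 2, by omega⟩
  have pifix : ∀ t ∈ T, m • t = t := by
    intro t ht
    rw [memT] at ht
    rw [hj0, add_nsmul, one_nsmul, mul_comm, mul_nsmul', two_nsmul, ht, nsmul_zero, zero_add]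
  have negT : ∀ t ∈ T, -t = t := by
    intro t ht
    rw [memT] at ht
    exact neg_eq_of_add_eq_zero_left ht
  have addT : ∀ s ∈ T, ∀ t ∈ T, s + t ∈ T := by
    intro s hs t ht
    rw [memT] at hs ht ⊢
    calc s + t + (s + t) = (s + s) + (t + t) := by abel
      _ = 0 := by rw [hs, ht, add_zero]
  have zeroT : (0 : G) ∈ T := by rw [memT, add_zero]
  -- fibre sizes
  have cardF : ∀ s ∈ T, (F s).card = (F 0).card := by
    intro s hs
    have : F s = (F 0).image (fun x => x + s) := by
      ext x
      rw [memF, Finset.mem_image]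
      constructor
      · intro hx
        refine ⟨x + s, ?_, ?_⟩
        · rw [memF, nsmul_add, hx, pifix s hs]; exact (memT s).mp hs
        · show x + s + s = x
          rw [add_assoc, (memT s).mp hs, add_zero]
      · rintro ⟨y, hy, rfl⟩
        rw [memF] at hy
        rw [nsmul_add, hy, zero_add, pifix s hs]
    rw [this, card_image_of_injective _ (add_left_injective s)]
  have cardG : Fintype.card G = T.card * (F 0).card := by
    rw [← Finset.card_univ]
    rw [Finset.card_eq_sum_card_fiberwise (f := fun x : G => m • x) (s := (univ : Finset G)) (t := T)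
      (fun x _ => piT x)]
    rw [Finset.sum_congr rfl (fun s hs => cardF s hs), Finset.sum_const, smul_eq_mul]
  set k := (F 0).card with hk
  -- k is odd
  have hkodd : k % 2 = 1 := by
    by_contra hcon
    have hdvd : 2 ∣ k := by omega
    let K : AddSubgroup G := (nsmulAddMonoidHom (α := G) m).ker
    have hKk : Fintype.card K = k := by
      rw [hk, Fintype.card_subtype]
      apply congrArg
      ext x
      rw [memF, Finset.mem_filter, AddMonoidHom.mem_ker]
      simp
    have : Fact (Nat.Prime 2) := ⟨Nat.prime_two⟩
    obtain ⟨x, hx⟩ := exists_prime_addOrderOf_dvd_card (G := K) 2 (by rw [hKk]; exact hdvd)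
    have hx2 : (x : G) + (x : G) = 0 := by
      have := addOrderOf_nsmul_eq_zero x
      rw [hx, two_nsmul] at this
      have h3 := congrArg (Subtype.val) this
      simpa using h3
    have hxm : m • (x : G) = 0 := by
      have := x.2
      rwa [AddMonoidHom.mem_ker] at this
    have hx0 : (x : G) = 0 := by
      rw [pifix _ ((memT _).mpr hx2)] at hxm
      exact hxm
    have : x = 0 := Subtype.ext hx0
    rw [this, addOrderOf_zero] at hx
    omega
  -- the fibres of A
  set a : G → ℕ := fun t => (A.filter (fun x => m • x = t)).card with ha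
  obtain ⟨s, hsT, hs⟩ := Finset.exists_max_image T a ⟨0, zeroT⟩
  set As := A.filter (fun x => m • x = s) with hAs
  have negAs : ∀ x, x ∈ -As → m • x = s ∧ -x ∈ A := by
    intro x hx
    rw [Finset.mem_neg', hAs, Finset.mem_filter] at hx
    refine ⟨?_, hx.1⟩
    have := hx.2
    rw [smul_neg, neg_eq_iff_eq_neg, negT s hsT] at this
    exact this
  have hAsdisj : Disjoint As (-As) := by
    rw [Finset.disjoint_left]
    intro x hx hx'
    exact hA.neg_notMem (Finset.mem_filter.mp hx).1 (negAs x hx').2
  have hM1 : 2 * a s + 1 ≤ k := by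
    have hsub : insert s (As ∪ -As) ⊆ F s := by
      intro x hx
      rw [Finset.mem_insert, Finset.mem_union] at hx
      rw [memF]
      rcases hx with rfl | hx | hx
      · exact pifix _ hsT
      · exact (Finset.mem_filter.mp hx).2
      · exact (negAs x hx).1
    have hnot : s ∉ As ∪ -As := by
      intro hx
      rw [Finset.mem_union] at hx
      have hsA : s ∈ A := by
        rcases hx with hx | hx
        · exact (Finset.mem_filter.mp hx).1
        · have := (negAs s hx).2
          rwa [negT s hsT] at this
      exact hA.2.1 s hsA s hsA ((memT s).mp hsT)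
    have := Finset.card_le_card hsub
    rw [Finset.card_insert_of_notMem hnot, Finset.card_union_of_disjoint hAsdisj, card_neg',
      cardF s hsT] at this
    show 2 * As.card + 1 ≤ k
    omega
  -- key claim
  have key : ∀ t ∈ T, 2 * (a t + a (t + s)) + 1 ≤ k := by
    intro t ht
    set X := A.filter (fun x => m • x = t) with hX
    set Y := A.filter (fun x => m • x = t + s) with hY
    have hats : a t ≤ a s := hs t ht
    have hatss : a (t + s) ≤ a s := hs (t + s) (addT t ht s hsT)
    have e1 : a t = X.card := rfl
    have e2 : a (t + s) = Y.card := rfl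
    rcases X.eq_empty_or_nonempty with hX0 | hXne
    · rw [hX0, Finset.card_empty] at e1
      omega
    rcases Y.eq_empty_or_nonempty with hY0 | hYne
    · rw [hY0, Finset.card_empty] at e2
      omega
    set D := X + -Y with hD
    set H := stab D with hH
    have hpos : 0 < (fs H).card := fs_card_pos H
    have hDF : ∀ x ∈ D, m • x = s := by
      intro x hx
      rw [hD, Finset.mem_add] at hx
      obtain ⟨b, hb, c, hc, rfl⟩ := hx
      rw [Finset.mem_neg', hY, Finset.mem_filter] at hc
      rw [hX, Finset.mem_filter] at hb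
      have h1 := hc.2
      rw [smul_neg, neg_eq_iff_eq_neg] at h1
      rw [nsmul_add, hb.2, h1, neg_add, negT t ht, negT s hsT, ← add_assoc, (memT t).mp ht, zero_add]
    have hDA : ∀ x ∈ D, x ∉ A ∧ -x ∉ A := by
      intro x hx
      rw [hD, Finset.mem_add] at hx
      obtain ⟨b, hb, c, hc, rfl⟩ := hx
      rw [Finset.mem_neg', hY, Finset.mem_filter] at hc
      rw [hX, Finset.mem_filter] at hb
      have h1 := hA.sub_notMem hb.1 hc.1
      have h2 := hA.sub_notMem hc.1 hb.1
      rw [sub_neg_eq_add] at h1
      refine ⟨h1, ?_⟩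
      have : -(b + c) = -c - b := by abel
      rw [this]; exact h2
    have hDne : D.Nonempty := hXne.add hYne.neg
    have hHK : fs H ⊆ F 0 := by
      intro g hg
      rw [mem_fs] at hg
      obtain ⟨x, hx⟩ := hDne
      have h1 := hDF x hx
      have h2 := hDF _ (stab_add hg hx)
      rw [nsmul_add, h1] at h2
      rw [memF]
      exact add_eq_left.mp h2
    -- |D| + 2 a s ≤ k
    have hDM : D.card + 2 * a s ≤ k := by
      have hsub : D ∪ (As ∪ -As) ⊆ F s := by
        intro x hx
        rw [Finset.mem_union, Finset.mem_union] at hx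
        rw [memF]
        rcases hx with hx | hx | hx
        · exact hDF x hx
        · exact (Finset.mem_filter.mp hx).2
        · exact (negAs x hx).1
      have hd : Disjoint D (As ∪ -As) := by
        rw [Finset.disjoint_left]
        intro x hx hx'
        rw [Finset.mem_union] at hx'
        rcases hx' with hx' | hx'
        · exact (hDA x hx).1 (Finset.mem_filter.mp hx').1
        · exact (hDA x hx).2 (negAs x hx').2
      have := Finset.card_le_card hsub
      rw [Finset.card_union_of_disjoint hd, Finset.card_union_of_disjoint hAsdisj, card_neg',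
        cardF s hsT] at this
      have e3 : a s = As.card := rfl
      omega
    have hkn := kneser' X (-Y) hXne hYne.neg
    rw [← hD, ← hH] at hkn
    obtain ⟨u, hu⟩ := card_dvd H _ (le_stab_add H X)
    obtain ⟨v, hv⟩ := card_dvd H _ (le_stab_add H (-Y))
    have hXu : X.card ≤ (fs H).card * u := by
      rw [← hu]
      apply Finset.card_le_card
      intro x hx
      rw [Finset.mem_add]
      exact ⟨x, hx, 0, mem_fs.mpr H.zero_mem, add_zero x⟩
    have hYv : Y.card ≤ (fs H).card * v := by
      rw [← hv, ← card_neg' Y]
      apply Finset.card_le_card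
      intro x hx
      rw [Finset.mem_add]
      exact ⟨x, hx, 0, mem_fs.mpr H.zero_mem, add_zero x⟩
    have hHF : H ≤ stab (F 0) := by
      intro g hg
      apply mem_stab_of_forall
      intro x hx
      rw [memF] at hx ⊢
      have := hHK (mem_fs.mpr hg)
      rw [memF] at this
      rw [nsmul_add, hx, this, add_zero]
    obtain ⟨N, hN⟩ := card_dvd H _ hHF
    rw [← hk] at hN
    have hhodd : (fs H).card % 2 = 1 := by
      by_contra hcon
      have : 2 ∣ k := by rw [hN]; exact Dvd.dvd.mul_right (by omega) _
      omega
    have hNodd : N % 2 = 1 := by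
      by_contra hcon
      have : 2 ∣ k := by rw [hN]; exact Dvd.dvd.mul_left (by omega) _
      omega
    have hN4 : N % 4 = 1 := by
      apply hdiv N _ hNodd
      rw [cardG, hN]
      exact Dvd.dvd.mul_left (Dvd.intro_left _ rfl) _
    obtain ⟨j, hj⟩ : ∃ j, N = 4 * j + 1 := ⟨N / 4, by omega⟩
    rw [hN, hj]
    rw [e1] at hats
    rw [e2] at hatss
    rw [e1, e2]
    apply num3 (fs H).card j u v (a s) X.card Y.card hpos hhodd hXu hYv hats hatss
    rw [hu, hv] at hkn
    rw [← hj, ← hN]
    have : (fs H).card * (u + v) = (fs H).card * u + (fs H).card * v := by ring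
    omega
  -- sum up
  have sumA : ∑ t ∈ T, a t = A.card :=
    (Finset.card_eq_sum_card_fiberwise (f := fun x : G => m • x) (s := A) (t := T)
      (fun x _ => piT x)).symm
  have sumA2 : ∑ t ∈ T, a (t + s) = A.card := by
    rw [← sumA]
    apply Finset.sum_nbij' (fun t => t + s) (fun t => t + s)
    · intro t ht; exact addT t ht s hsT
    · intro t ht; exact addT t ht s hsT
    · intro t ht; show t + s + s = t; rw [add_assoc, (memT s).mp hsT, add_zero]
    · intro t ht; show t + s + s = t; rw [add_assoc, (memT s).mp hsT, add_zero]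
    · intro t ht; rfl
  have hsum := Finset.sum_le_sum key
  rw [Finset.sum_const, smul_eq_mul, Finset.sum_add_distrib, ← Finset.mul_sum,
    Finset.sum_add_distrib, sumA, sumA2, Finset.sum_const, smul_eq_mul] at hsum
  rw [cardG]
  omega

end

end Pool.Agent.Helper549
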