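import Mathlib
import Pool.Agent.Helper549.SFLower
import Pool.Agent.Helper549.SFUpper3

set_option autoImplicit false
set_option linter.unusedSectionVars false

open Finset

namespace Pool.Agent.Helper549

/-- `μ(G,[0,2])`: the largest size of a `[0,2]`-sum-free subset of the finite group `G`. -/
noncomputable def mu (G : Type*) [AddCommGroup G] [Fintype G] : ℕ :=
  sSup {m : ℕ | ∃ A : Finset G, SF A ∧ A.card = m}

section

variable {G : Type*} [AddCommGroup G] [Fintype G]

theorem bdd_SF : BddAbove {m : ℕ | ∃ A : Finset G, SF A ∧ A.card = m} :=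
  ⟨Fintype.card G, by rintro m ⟨A, _, rfl⟩; exact Finset.card_le_univ A⟩

theorem SF_empty : SF (∅ : Finset G) := by
  refine ⟨by simp, by simp, by simp⟩

theorem mu_isGreatest : IsGreatest {m : ℕ | ∃ A : Finset G, SF A ∧ A.card = m} (mu G) :=
  ⟨Nat.sSup_mem ⟨0, ∅, SF_empty, rfl⟩ bdd_SF, fun _ hm => le_csSup bdd_SF hm⟩

theorem card_le_mu {A : Finset G} (hA : SF A) : A.card ≤ mu G :=
  mu_isGreatest.2 ⟨A, hA, rfl⟩

theorem exists_mu : ∃ A : Finset G, SF A ∧ A.card = mu G := mu_isGreatest.1

/-- a number `≡ 3 mod 4` has a prime divisor `≡ 3 mod 4`. -/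
theorem exists_prime_three (d : ℕ) (hd : d % 4 = 3) : ∃ p, p.Prime ∧ p % 4 = 3 ∧ p ∣ d := by
  by_contra hcon
  push Not at hcon
  have : ∀ d : ℕ, (∀ p, p.Prime → p ∣ d → p % 4 = 1) → d ≠ 0 → d % 4 = 1 := by
    intro d
    induction d using Nat.recOnMul with
    | zero => intro _ h; exact absurd rfl h
    | one => intro _ _; rfl
    | prime p hp => intro h _; exact h p hp dvd_rfl
    | mul a b iha ihb =>
      intro h hne
      have ha := iha (fun p hp hpa => h p hp (hpa.mul_right _)) (left_ne_zero_of_mul hne)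
      have hb := ihb (fun p hp hpb => h p hp (hpb.mul_left _)) (right_ne_zero_of_mul hne)
      rw [Nat.mul_mod, ha, hb]
  have h2 := this d (fun p hp hpd => by
    have h3 := hcon p hp
    have hodd : p % 2 = 1 := by
      rcases hp.eq_two_or_odd with rfl | h
      · omega
      · exact h
    have : p % 4 ≠ 3 := fun h => h3 h hpd
    omega) (by omega)
  omega

theorem prime_dvd_exponent {p : ℕ} (hp : p.Prime) (h : p ∣ Fintype.card G) :
    p ∣ AddMonoid.exponent G := by
  have : Fact p.Prime := ⟨hp⟩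
  obtain ⟨x, hx⟩ := exists_prime_addOrderOf_dvd_card (G := G) p h
  rw [← hx]
  exact AddMonoid.addOrder_dvd_exponent x

theorem mu_three (p : ℕ) (hp : p.Prime) (hp3 : p % 4 = 3) (hpn : p ∣ Fintype.card G)
    (hmin : ∀ q, q.Prime → q % 4 = 3 → q ∣ Fintype.card G → p ≤ q) :
    4 * p * mu G = (p + 1) * Fintype.card G := by
  classical
  apply le_antisymm
  · obtain ⟨A, hA, hAc⟩ := exists_mu (G := G)
    rw [← hAc]
    rcases upper_main A hA with h | ⟨d, hd, hd3, h⟩
    · nlinarith
    · obtain ⟨q, hq, hq3, hqd⟩ := exists_prime_three d hd3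
      have hpq := hmin q hq hq3 (hqd.trans hd)
      have hqd' : q ≤ d := Nat.le_of_dvd (by omega) hqd
      have hpd : p ≤ d := hpq.trans hqd'
      have hd0 : 0 < d := by omega
      have h1 : d * (4 * p * A.card) ≤ d * ((p + 1) * Fintype.card G) := by
        calc d * (4 * p * A.card) = p * (4 * d * A.card) := by ring
          _ ≤ p * ((d + 1) * Fintype.card G) := Nat.mul_le_mul_left _ h
          _ = (p * d + p) * Fintype.card G := by ring
          _ ≤ (p * d + d) * Fintype.card G := Nat.mul_le_mul_right _ (by omega)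
          _ = d * ((p + 1) * Fintype.card G) := by ring
      exact Nat.le_of_mul_le_mul_left h1 hd0
  · obtain ⟨A, hA, hAc⟩ := lower_main (G := G) p (prime_dvd_exponent hp hpn)
    have h1 := card_le_mu hA
    have h2 : 4 * ((p + 1) / 4) = p + 1 := by omega
    calc (p + 1) * Fintype.card G = 4 * (((p + 1) / 4) * Fintype.card G) := by
          rw [← mul_assoc, h2]
      _ = 4 * (A.card * p) := by rw [hAc]
      _ = 4 * p * A.card := by ring
      _ ≤ 4 * p * mu G := Nat.mul_le_mul_left _ h1

theorem mu_upper (hno : ∀ q, q.Prime → q ∣ Fintype.card G → q % 4 ≠ 3) :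
    4 * mu G ≤ Fintype.card G := by
  classical
  obtain ⟨A, hA, hAc⟩ := exists_mu (G := G)
  rw [← hAc]
  rcases upper_main A hA with h | ⟨d, hd, hd3, h⟩
  · exact h
  · obtain ⟨q, hq, hq3, hqd⟩ := exists_prime_three d hd3
    exact absurd hq3 (hno q hq (hqd.trans hd))

theorem mu_four (hno : ∀ q, q.Prime → q ∣ Fintype.card G → q % 4 ≠ 3)
    (h4 : 4 ∣ AddMonoid.exponent G) : 4 * mu G = Fintype.card G := by
  classical
  apply le_antisymm (mu_upper hno)
  obtain ⟨A, hA, hAc⟩ := lower_main (G := G) 4 h4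
  have h1 := card_le_mu hA
  norm_num at hAc
  omega

theorem odd_dvd_mod (hno : ∀ q, q.Prime → q ∣ Fintype.card G → q % 4 ≠ 3) (d : ℕ)
    (hd : d ∣ Fintype.card G) (hodd : d % 2 = 1) : d % 4 = 1 := by
  by_contra hcon
  obtain ⟨q, hq, hq3, hqd⟩ := exists_prime_three d (by omega)
  exact hno q hq (hqd.trans hd) hq3

theorem mu_two [DecidableEq G] (hno : ∀ q, q.Prime → q ∣ Fintype.card G → q % 4 ≠ 3)
    (h2 : AddMonoid.exponent G % 4 = 2) :
    4 * mu G + (univ.filter (fun x : G => x + x = 0)).card = Fintype.card G := by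
  classical
  apply le_antisymm
  · obtain ⟨A, hA, hAc⟩ := exists_mu (G := G)
    rw [← hAc]
    obtain ⟨m, hm⟩ : ∃ m, AddMonoid.exponent G = 2 * m := ⟨AddMonoid.exponent G / 2, by omega⟩
    apply upper3 m (by omega) _ (odd_dvd_mod hno) A hA
    intro x; rw [← hm]; exact AddMonoid.exponent_nsmul_eq_zero x
  · obtain ⟨A, hA, hAc⟩ := lower3 (G := G) h2
    have h1 := card_le_mu hA
    omega

theorem card_odd (hodd : AddMonoid.exponent G % 2 = 1) : Fintype.card G % 2 = 1 := by
  by_contra hcon
  have := prime_dvd_exponent (G := G) Nat.prime_two (by omega)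
  omega

theorem mu_odd (hno : ∀ q, q.Prime → q ∣ Fintype.card G → q % 4 ≠ 3)
    (hodd : AddMonoid.exponent G % 2 = 1) :
    (AddMonoid.exponent G - 1) * Fintype.card G ≤ 4 * AddMonoid.exponent G * mu G ∧
      4 * mu G + 1 ≤ Fintype.card G := by
  classical
  constructor
  · obtain ⟨A, hA, hAc⟩ := lower_main (G := G) (AddMonoid.exponent G) dvd_rfl
    have h1 := card_le_mu hA
    have hκ : AddMonoid.exponent G % 4 = 1 :=
      odd_dvd_mod hno _ (AddGroup.exponent_dvd_card) hodd
    have h2 : 4 * ((AddMonoid.exponent G + 1) / 4) = AddMonoid.exponent G - 1 := by omega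
    calc (AddMonoid.exponent G - 1) * Fintype.card G
        = 4 * (((AddMonoid.exponent G + 1) / 4) * Fintype.card G) := by
          rw [← mul_assoc, h2]
      _ = 4 * (A.card * AddMonoid.exponent G) := by rw [hAc]
      _ = 4 * AddMonoid.exponent G * A.card := by ring
      _ ≤ 4 * AddMonoid.exponent G * mu G := Nat.mul_le_mul_left _ h1
  · have h1 := mu_upper hno
    have h2 := card_odd hodd
    have h3 := odd_dvd_mod hno _ dvd_rfl h2
    omega

end

end Pool.Agent.Helper549
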