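import Mathlib
import Pool.Agent.Helper549.SFFourier
import Pool.Agent.Helper549.SFMu

set_option autoImplicit false
set_option linter.unusedSectionVars false
set_option linter.unusedVariables false

open scoped Pointwise
open Finset

namespace Pool.Agent.Helper549

open Kneser

universe u

section

variable {G : Type u} [AddCommGroup G] [Fintype G] [DecidableEq G]

theorem not_nine (hdiv : ∀ m, m ∣ Fintype.card G → m % 4 = 1) {m : ℕ}
    (hm : m ∣ Fintype.card G) : m ≠ 9 := by
  rintro rfl
  have := hdiv 3 ((by norm_num : (3 : ℕ) ∣ 9).trans hm)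
  omega

theorem PA_of (hdiv : ∀ m, m ∣ Fintype.card G → m % 4 = 1) (m : ℕ)
    (hm : m ∣ Fintype.card G) : PA m := by
  have h1 := hdiv m hm
  have h2 := not_nine hdiv hm
  unfold PA
  omega

theorem PB_of (hdiv : ∀ m, m ∣ Fintype.card G → m % 4 = 1) (h5 : ¬ 5 ∣ Fintype.card G) (m : ℕ)
    (hm : m ∣ Fintype.card G) : PB m := by
  have h1 := hdiv m hm
  have h2 := not_nine hdiv hm
  have h3 : m ≠ 5 := by rintro rfl; exact h5 hm
  unfold PB
  omega

theorem typeIV_large (hdiv : ∀ m, m ∣ Fintype.card G → m % 4 = 1)
    (hκ : 13 ≤ AddMonoid.exponent G) (A : Finset G) (hA : SF A) :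
    4 * AddMonoid.exponent G * A.card + Fintype.card G
      ≤ AddMonoid.exponent G * Fintype.card G := by
  by_contra hcon
  push Not at hcon
  set κ := AddMonoid.exponent G with hκdef
  set n := Fintype.card G with hn
  have hnpos : 0 < n := Fintype.card_pos
  have hne : A.Nonempty := by
    by_contra h
    rw [Finset.not_nonempty_iff_eq_empty] at h
    rw [h, Finset.card_empty] at hcon
    nlinarith
  have h13 : 3 * n < 13 * A.card := by
    by_contra h
    push Not at h
    have h1 : κ * (13 * A.card) ≤ κ * (3 * n) := Nat.mul_le_mul_left _ h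
    nlinarith
  obtain ⟨Q, _, _, _, f, hf, hQκ, k, hk⟩ := exists_dense_fiber A hA hne
  have hkc := kcard_mul f hf
  have hkpos : 0 < kcard f := by
    by_contra h
    have : kcard f = 0 := by omega
    rw [this, zero_mul] at hkc
    omega
  have hk3 : 3 * kcard f < 5 * (fcard f A k + fcard f A (-k)) := by
    by_contra h
    push Not at h
    set b := fcard f A k + fcard f A (-k) with hb
    have hAn : A.card ≤ n := Finset.card_le_univ _
    obtain ⟨c, hc⟩ := Nat.exists_eq_add_of_le hAn
    have h1 : 2 * A.card * kcard f ≤ b * c := by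
      have : b * n = b * A.card + b * c := by rw [hc]; ring
      nlinarith
    have h2 : 5 * (b * c) ≤ 3 * kcard f * c := by
      have := Nat.mul_le_mul_right c h
      nlinarith
    have h3 : kcard f * (10 * A.card) ≤ kcard f * (3 * c) := by nlinarith
    have h4 := Nat.le_of_mul_le_mul_left h3 hkpos
    omega
  have hfinal : 4 * A.card + kcard f ≤ n := by
    by_cases h5 : 5 ∣ n
    · have h5κ : 5 ∣ κ := prime_dvd_exponent (G := G) (by norm_num) h5
      have hκ4 : κ % 4 = 1 := hdiv κ AddGroup.exponent_dvd_card
      have hκ25 : 25 ≤ κ := by omega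
      have hα : 6 * n < 25 * A.card := by
        by_contra h
        push Not at h
        have h1 : κ * (25 * A.card) ≤ κ * (6 * n) := Nat.mul_le_mul_left _ h
        nlinarith
      exact fiber_main_A (fun m hm => ⟨hdiv m hm, PA_of hdiv m hm⟩) f hf A hA k hk3 hα
    · exact fiber_main_B (fun m hm => ⟨hdiv m hm, PB_of hdiv h5 m hm⟩) f hf A hA k hk3 h13
  have h1 : κ * (4 * A.card + kcard f) ≤ κ * n := Nat.mul_le_mul_left _ hfinal
  have h2 : n ≤ κ * kcard f := by
    rw [hn, ← hkc, mul_comm (kcard f)]
    exact Nat.mul_le_mul_right _ hQκ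
  nlinarith

/-- The base case of exponent five: order `25`. -/
theorem base25 (hn : Fintype.card G = 25) (hexp : AddMonoid.exponent G ≤ 5) (A : Finset G)
    (hA : SF A) : A.card ≤ 5 := by
  have hdiv : ∀ m, m ∣ Fintype.card G → m % 4 = 1 := by
    intro m hm
    rw [hn] at hm
    have : m ∈ Nat.divisors 25 := by rw [Nat.mem_divisors]; exact ⟨hm, by norm_num⟩
    have h2 : Nat.divisors 25 = {1, 5, 25} := by decide +kernel
    rw [h2] at this
    simp only [mem_insert, mem_singleton] at this
    rcases this with rfl | rfl | rfl <;> rfl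
  by_contra hcon
  push Not at hcon
  have hup : 4 * A.card ≤ 25 := by
    rcases upper_main A hA with h | ⟨d, hd, hd3, _⟩
    · omega
    · have := hdiv d hd; omega
  have hA6 : A.card = 6 := by omega
  have hne : A.Nonempty := Finset.card_pos.mp (by omega)
  obtain ⟨Q, _, _, _, f, hf, hQκ, k, hk⟩ := exists_dense_fiber A hA hne
  have hkc := kcard_mul f hf
  rw [hn, hA6] at hk
  rw [hn] at hkc
  have hQG : Fintype.card Q ∣ Fintype.card G := by rw [hn]; exact Dvd.intro_left _ hkc
  have H1 := fiber_H1 f hf A hA
  have H2 := fiber_pair (P := PA) (PA_of hdiv) f hf A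
  have hsum := sum_fcard f A
  rw [hA6] at hsum
  -- the kernel has order 1, 5 or 25
  have hcases : kcard f = 1 ∨ kcard f = 5 ∨ kcard f = 25 := by
    have hm : kcard f ∣ 25 := Dvd.intro _ hkc
    have : kcard f ∈ Nat.divisors 25 := by rw [Nat.mem_divisors]; exact ⟨hm, by norm_num⟩
    have h2 : Nat.divisors 25 = {1, 5, 25} := by decide +kernel
    rw [h2] at this
    simpa using this
  have hk12 : fcard f A k + fcard f A (-k) ≤ 12 := by
    have h1 : fcard f A k ≤ A.card := Finset.card_le_card (Finset.filter_subset _ _)
    have h2 : fcard f A (-k) ≤ A.card := Finset.card_le_card (Finset.filter_subset _ _)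
    omega
  rcases hcases with h | h | h
  · rw [h] at hkc
    omega
  · rw [h] at hk hkc
    have hQ5 : Fintype.card Q = 5 := by omega
    have hb4 : 4 ≤ fcard f A k + fcard f A (-k) := by omega
    have hk3 : 3 * kcard f < 5 * (fcard f A k + fcard f A (-k)) := by omega
    rcases Nat.lt_or_ge (2 * (lev (fcard f A) 0).card) (Fintype.card Q) with hJ | hJ
    · have := fiber_step0 hdiv f hf A hA (by omega)
      omega
    · by_cases hM : ∀ x, 25 * fcard f A x ≤ 12 * kcard f
      · have hpt := step1A_pt H1 H2 k hk3 hM
        have hpt2 : ∀ x ∈ (univ : Finset Q), fcard f A x + fcard f A (x - k) ≤ 2 := by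
          intro x _
          have := hpt x
          omega
        have hs := Finset.sum_le_sum hpt2
        rw [Finset.sum_add_distrib, sum_shift, Finset.sum_const, smul_eq_mul,
          Finset.card_univ, hsum] at hs
        omega
      · push Not at hM
        obtain ⟨x, hx⟩ := hM
        obtain ⟨i0, _, hi0⟩ := Finset.exists_max_image univ (fcard f A) ⟨x, mem_univ x⟩
        have hmax : ∀ y, fcard f A y ≤ fcard f A i0 := fun y => hi0 y (mem_univ y)
        apply step2A (h := kcard f) ?_ H1 H2 i0 hmax ?_ ?_ ?_
        · intro r hr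
          rcases PA_of hdiv r (hr.trans hQG) with h | h | h
          · exact Or.inl h
          · right; omega
          · right; omega
        · have := hmax x; omega
        · omega
        · rw [hsum, h, hQ5]
  · rw [h] at hk
    omega

end

end Pool.Agent.Helper549
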