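import Mathlib
import Pool.Agent.Helper549.SFTypeIV

set_option autoImplicit false
set_option linter.unusedSectionVars false
set_option linter.unusedVariables false

open scoped Pointwise
open Finset

namespace Pool.Agent.Helper549

open Kneser

universe u

section

variable {G : Type u} [AddCommGroup G] [Fintype G] [DecidableEq G]

theorem count_chars (h5 : ∀ x : G, 5 • x = 0) (a : G) (ha : a ≠ 0) :
    5 * (univ.filter (fun ψ : AddChar G ℂ => ψ a = 1)).card = Fintype.card G := by
  classical
  have h1 : ∑ ψ : AddChar G ℂ, ∑ j ∈ range 5, ψ (j • a) = (Fintype.card G : ℂ) := by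
    rw [Finset.sum_comm]
    have h2 : ∀ j ∈ range 5, ∑ ψ : AddChar G ℂ, ψ (j • a)
        = if j = 0 then (Fintype.card G : ℂ) else 0 := by
      intro j hj
      rw [AddChar.sum_apply_eq_ite]
      rw [Finset.mem_range] at hj
      by_cases hj0 : j = 0
      · subst hj0; simp
      · rw [if_neg, if_neg hj0]
        intro h3
        apply ha
        have h4 : addOrderOf a ∣ 5 := addOrderOf_dvd_of_nsmul_eq_zero (h5 a)
        have h6 : addOrderOf a ∣ j := addOrderOf_dvd_of_nsmul_eq_zero h3
        rcases (Nat.dvd_prime (by norm_num : Nat.Prime 5)).mp h4 with h7 | h7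
        · exact AddMonoid.addOrderOf_eq_one_iff.mp h7
        · rw [h7] at h6
          have := Nat.le_of_dvd (Nat.pos_of_ne_zero hj0) h6
          omega
    rw [Finset.sum_congr rfl h2, Finset.sum_ite_eq', if_pos (by simp)]
  have h3 : ∀ ψ : AddChar G ℂ, ∑ j ∈ range 5, ψ (j • a) = if ψ a = 1 then (5 : ℂ) else 0 := by
    intro ψ
    have h4 : ∀ j ∈ range 5, ψ (j • a) = ψ a ^ j := fun j _ => AddChar.map_nsmul_eq_pow ψ j a
    rw [Finset.sum_congr rfl h4]
    have h6 : ψ a ^ 5 = 1 := by
      rw [← AddChar.map_nsmul_eq_pow, h5, AddChar.map_zero_eq_one]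
    by_cases h7 : ψ a = 1
    · rw [if_pos h7, h7]; simp
    · rw [if_neg h7]
      have h8 := mul_geom_sum (ψ a) 5
      rw [h6, sub_self] at h8
      rcases mul_eq_zero.mp h8 with h9 | h9
      · exact absurd (sub_eq_zero.mp h9) h7
      · exact h9
  rw [Finset.sum_congr rfl (fun ψ _ => h3 ψ), ← Finset.sum_filter, Finset.sum_const,
    nsmul_eq_mul] at h1
  have : ((univ.filter (fun ψ : AddChar G ℂ => ψ a = 1)).card * 5 : ℕ) = Fintype.card G := by
    exact_mod_cast h1
  omega

end

theorem exp5_aux (d : ℕ) : ∀ (G : Type u) [AddCommGroup G] [Fintype G] [DecidableEq G],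
    (∀ x : G, 5 • x = 0) → Fintype.card G = 5 ^ d → ∀ A : Finset G, SF A →
      5 * A.card ≤ Fintype.card G := by
  induction d with
  | zero =>
    intro G _ _ _ h5 hn A hA
    rw [pow_zero] at hn
    have : A = ∅ := by
      rw [Finset.eq_empty_iff_forall_notMem]
      intro x hx
      have hx0 : x = 0 := Fintype.card_le_one_iff.mp (by omega) x 0
      rw [hx0] at hx
      exact hA.1 hx
    rw [this]; simp
  | succ d ih =>
    intro G _ _ _ h5 hn A hA
    have hexp : AddMonoid.exponent G ≤ 5 :=
      Nat.le_of_dvd (by norm_num) (AddMonoid.exponent_dvd_of_forall_nsmul_eq_zero h5)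
    rcases Nat.eq_zero_or_pos d with rfl | hd
    · -- order five
      rw [zero_add, pow_one] at hn
      rcases upper_main A hA with h | ⟨r, hr, hr3, _⟩
      · omega
      · rw [hn] at hr
        rcases (Nat.dvd_prime (by norm_num : Nat.Prime 5)).mp hr with h | h <;> omega
    rcases Nat.lt_or_ge d 2 with hd2 | hd2
    · have : d = 1 := by omega
      subst this
      have := base25 (by rw [hn]; norm_num) hexp A hA
      rw [hn]; norm_num; omega
    -- averaging
    classical
    set n := Fintype.card G with hnn
    set K : AddChar G ℂ → ℕ := fun ψ => (A.filter (fun a => ψ a = 1)).card with hK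
    have hK0 : K 0 = A.card := by simp [hK]
    have hKle : ∀ ψ : AddChar G ℂ, ψ ≠ 0 → 25 * K ψ ≤ n := by
      intro ψ hψ
      let H : AddSubgroup G := ψ.toAddMonoidHom.ker
      have memH : ∀ x : G, x ∈ H ↔ ψ x = 1 := by
        intro x
        rw [AddMonoidHom.mem_ker, AddChar.toAddMonoidHom_apply]
        constructor
        · intro h
          have := congrArg Additive.toMul h
          simpa using this
        · intro h; rw [h]; rfl
      have hH : ∀ x y : G, (QuotientAddGroup.mk x : G ⧸ H) = QuotientAddGroup.mk y ↔ ψ x = ψ y := by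
        intro x y
        rw [QuotientAddGroup.eq, memH]
        constructor
        · intro h1
          have h2 : ψ (x + (-x + y)) = ψ x * ψ (-x + y) := AddChar.map_add_eq_mul _ _ _
          rw [add_neg_cancel_left, h1, mul_one] at h2
          exact h2.symm
        · intro h
          rw [AddChar.map_add_eq_mul, ← h, ← AddChar.map_add_eq_mul, neg_add_cancel,
            AddChar.map_zero_eq_one]
      let _ : Fintype (G ⧸ H) := Fintype.ofFinite _
      let _ : Fintype H := Fintype.ofFinite _
      have hq5 : Fintype.card (G ⧸ H) ≤ 5 :=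
        le_trans (char_card_le (QuotientAddGroup.mk' H) (QuotientAddGroup.mk'_surjective H) ψ hH)
          hexp
      have hmul : Fintype.card (G ⧸ H) * Fintype.card H = n := by
        have := AddSubgroup.card_eq_card_quotient_mul_card_addSubgroup H
        rw [Nat.card_eq_fintype_card, Nat.card_eq_fintype_card, Nat.card_eq_fintype_card] at this
        exact this.symm
      have hq1 : Fintype.card (G ⧸ H) ≠ 1 := by
        intro h1
        apply hψ
        ext x
        have h2 : (QuotientAddGroup.mk x : G ⧸ H) = QuotientAddGroup.mk 0 :=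
          Fintype.card_le_one_iff.mp (le_of_eq h1) _ _
        rw [hH, AddChar.map_zero_eq_one] at h2
        rw [h2]; simp
      obtain ⟨i, hi, hi'⟩ := (Nat.dvd_prime_pow (by norm_num : Nat.Prime 5)).mp
        (show Fintype.card (G ⧸ H) ∣ 5 ^ (d + 1) by rw [← hn]; exact Dvd.intro _ hmul)
      have hi1 : i = 1 := by
        rcases Nat.lt_or_ge i 1 with h1 | h1
        · have : i = 0 := by omega
          rw [this, pow_zero] at hi'
          exact absurd hi' hq1
        · rcases Nat.lt_or_ge i 2 with h2 | h2
          · omega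
          · have : 5 ^ 2 ≤ 5 ^ i := Nat.pow_le_pow_right (by norm_num) h2
            omega
      rw [hi1, pow_one] at hi'
      have hHcard : Fintype.card H = 5 ^ d := by
        rw [hi', hn, pow_succ] at hmul
        omega
      have hSF : SF (univ.filter (fun x : H => (x : G) ∈ A)) := by
        refine ⟨?_, ?_, ?_⟩
        · simp only [mem_filter, mem_univ, true_and, ZeroMemClass.coe_zero]
          exact hA.1
        · intro a ha b hb hab
          simp only [mem_filter, mem_univ, true_and] at ha hb
          apply hA.2.1 _ ha _ hb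
          rw [← AddSubgroup.coe_add, hab]; rfl
        · intro a ha b hb hab
          simp only [mem_filter, mem_univ, true_and] at ha hb hab
          exact hA.2.2 _ ha _ hb (by rw [← AddSubgroup.coe_add]; exact hab)
      have h1 := ih H (fun x => Subtype.ext (by rw [AddSubgroup.coe_nsmul]; exact h5 x)) hHcard
        _ hSF
      have h2 : (univ.filter (fun x : H => (x : G) ∈ A)).card = K ψ := by
        show _ = (A.filter (fun a => ψ a = 1)).card
        refine Finset.card_bij (fun (x : H) _ => (x : G)) ?_ ?_ ?_
        · intro x hx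
          rw [Finset.mem_filter] at hx ⊢
          exact ⟨hx.2, (memH _).mp x.2⟩
        · intro x _ y _ hxy
          exact Subtype.ext hxy
        · intro y hy
          rw [Finset.mem_filter] at hy
          exact ⟨⟨y, (memH _).mpr hy.2⟩, by rw [Finset.mem_filter]; exact ⟨mem_univ _, hy.1⟩, rfl⟩
      rw [h2] at h1
      rw [hi'] at hmul
      omega
    have hdouble : 5 * ∑ ψ : AddChar G ℂ, K ψ = A.card * n := by
      have h1 : ∑ ψ : AddChar G ℂ, K ψ
          = ∑ a ∈ A, (univ.filter (fun ψ : AddChar G ℂ => ψ a = 1)).card := by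
        simp only [hK, Finset.card_filter]
        rw [Finset.sum_comm]
      rw [h1, Finset.mul_sum]
      rw [Finset.sum_congr rfl (fun a ha => count_chars h5 a (fun h0 => hA.1 (h0 ▸ ha)))]
      rw [Finset.sum_const, smul_eq_mul]
    have hcardchar : (univ.erase (0 : AddChar G ℂ)).card = n - 1 := by
      rw [Finset.card_erase_of_mem (mem_univ _), Finset.card_univ, AddChar.card_eq]
    have hsplit : ∑ ψ : AddChar G ℂ, K ψ = A.card + ∑ ψ ∈ univ.erase (0 : AddChar G ℂ), K ψ := by
      rw [← Finset.add_sum_erase univ K (mem_univ (0 : AddChar G ℂ)), hK0]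
    have hle : 25 * ∑ ψ ∈ univ.erase (0 : AddChar G ℂ), K ψ ≤ (n - 1) * n := by
      rw [Finset.mul_sum, ← hcardchar, ← smul_eq_mul ((univ.erase (0 : AddChar G ℂ)).card) n,
        ← Finset.sum_const]
      apply Finset.sum_le_sum
      intro ψ hψ
      exact hKle ψ (Finset.ne_of_mem_erase hψ)
    have hnbig : 125 ≤ n := by
      have : 5 ^ 3 ≤ 5 ^ (d + 1) := Nat.pow_le_pow_right (by norm_num) (by omega)
      omega
    have h5n : 5 ∣ n := by rw [hn]; exact dvd_pow_self 5 (by omega)
    by_contra hcon
    push Not at hcon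
    have hge : n + 5 ≤ 5 * A.card := by omega
    obtain ⟨N, hN⟩ : ∃ N, n = N + 5 := ⟨n - 5, by omega⟩
    have e1 : n - 1 = N + 4 := by omega
    rw [e1] at hle
    set W := ∑ ψ ∈ univ.erase (0 : AddChar G ℂ), K ψ with hW
    rw [hsplit] at hdouble
    have h7 : 5 * W = A.card * N := by
      have : A.card * n = A.card * N + 5 * A.card := by rw [hN]; ring
      omega
    have h8 : 5 * A.card * N ≤ (N + 4) * n := by nlinarith
    have h9 : (n + 5) * N ≤ 5 * A.card * N := Nat.mul_le_mul_right _ hge
    rw [hN] at h8 h9
    nlinarith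

theorem exp5 {G : Type u} [AddCommGroup G] [Fintype G] [DecidableEq G]
    (h5 : ∀ x : G, 5 • x = 0) (A : Finset G) (hA : SF A) : 5 * A.card ≤ Fintype.card G := by
  have : ∃ d, Fintype.card G = 5 ^ d := by
    have : Fact (Nat.Prime 5) := ⟨by norm_num⟩
    let _ := AddCommGroup.zmodModule (n := 5) h5
    refine ⟨Module.finrank (ZMod 5) G, ?_⟩
    have := Module.card_eq_pow_finrank (K := ZMod 5) (V := G)
    rw [ZMod.card] at this
    exact this
  obtain ⟨d, hd⟩ := this
  exact exp5_aux d G h5 hd A hA

end Pool.Agent.Helper549
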