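import Mathlib
import Pool.Agent.Helper549.SFExpFive

set_option autoImplicit false
set_option linter.unusedSectionVars false
set_option linter.unusedVariables false

open Finset

namespace Pool.Agent.Helper549

universe u

variable {G : Type u} [AddCommGroup G] [Fintype G]

theorem odd_upper [DecidableEq G] (hno : ∀ q, q.Prime → q ∣ Fintype.card G → q % 4 ≠ 3)
    (hodd : AddMonoid.exponent G % 2 = 1) (A : Finset G) (hA : SF A) :
    4 * AddMonoid.exponent G * A.card + Fintype.card G
      ≤ AddMonoid.exponent G * Fintype.card G := by
  have hcard := card_odd hodd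
  have hdiv : ∀ m, m ∣ Fintype.card G → m % 4 = 1 := by
    intro m hm
    apply odd_dvd_mod hno m hm
    by_contra hcon
    have : 2 ∣ Fintype.card G := (by omega : 2 ∣ m).trans hm
    omega
  have hκd : AddMonoid.exponent G ∣ Fintype.card G := AddGroup.exponent_dvd_card
  have hκ4 := hdiv _ hκd
  have hκ9 := not_nine hdiv hκd
  have hcases : AddMonoid.exponent G = 1 ∨ AddMonoid.exponent G = 5 ∨
      13 ≤ AddMonoid.exponent G := by omega
  rcases hcases with h | h | h
  · have hA0 : A = ∅ := by
      rw [Finset.eq_empty_iff_forall_notMem]
      intro x hx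
      have h1 := AddMonoid.exponent_nsmul_eq_zero x
      rw [h, one_nsmul] at h1
      rw [h1] at hx
      exact hA.1 hx
    rw [h, hA0]; simp
  · have h1 := exp5 (fun x => by rw [← h]; exact AddMonoid.exponent_nsmul_eq_zero x) A hA
    rw [h]
    omega
  · exact typeIV_large hdiv h A hA

/-- The value for groups all of whose prime divisors are congruent to `1` modulo `4`. -/
theorem mu_odd_exact (hno : ∀ q, q.Prime → q ∣ Fintype.card G → q % 4 ≠ 3)
    (hodd : AddMonoid.exponent G % 2 = 1) :
    4 * AddMonoid.exponent G * mu G = (AddMonoid.exponent G - 1) * Fintype.card G := by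
  classical
  apply le_antisymm
  · obtain ⟨A, hA, hAc⟩ := exists_mu (G := G)
    rw [← hAc]
    have h1 := odd_upper hno hodd A hA
    have h2 : AddMonoid.exponent G * Fintype.card G
        = (AddMonoid.exponent G - 1) * Fintype.card G + Fintype.card G := by
      have h3 : AddMonoid.exponent G = (AddMonoid.exponent G - 1) + 1 := by omega
      nth_rewrite 1 [h3]
      ring
    omega
  · exact (mu_odd hno hodd).1

end Pool.Agent.Helper549
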